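import Pool.Agent.Helper48.PS.Stage3

/-!
# The recursion of length `ω₁`
-/

set_option autoImplicit false

namespace Pool.Agent.Helper48.PS

/-- A uniform bound for contents starting from one of the finitely many small functions. -/
theorem bound_one (R : ℕ → Prop) (V : ℕ → Set (ℕ → ℕ)) (n : ℕ) :
    ∃ B : ℕ, ∀ h : ℕ → ℕ, (∀ i < n, h i ≤ n) →
      (∃ j h' u m, Legal R n h j h' u ∧ Dec V j m h') →
      ∃ j h' u m, Legal R n h j h' u ∧ Dec V j m h' ∧ j ≤ B ∧ m ≤ B := by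
  classical
  let ex : (Fin n → Fin (n + 1)) → ℕ → ℕ := fun g i => if hi : i < n then (g ⟨i, hi⟩ : ℕ) else 0
  have key : ∀ g : Fin n → Fin (n + 1), ∃ b : ℕ,
      (∃ j h' u m, Legal R n (ex g) j h' u ∧ Dec V j m h') →
      ∃ j h' u m, Legal R n (ex g) j h' u ∧ Dec V j m h' ∧ j ≤ b ∧ m ≤ b := by
    intro g
    by_cases hg : ∃ j h' u m, Legal R n (ex g) j h' u ∧ Dec V j m h'
    · obtain ⟨j, h', u, m, h1, h2⟩ := hg
      exact ⟨max j m, fun _ => ⟨j, h', u, m, h1, h2, le_max_left _ _, le_max_right _ _⟩⟩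
    · exact ⟨0, fun h => absurd h hg⟩
  choose b hb using key
  refine ⟨Finset.univ.sup b, fun h hh hex => ?_⟩
  let g : Fin n → Fin (n + 1) := fun i => ⟨h i, by have := hh i i.2; omega⟩
  have hg : ∀ i < n, h i = ex g i := fun i hi => by simp [ex, g, hi]
  obtain ⟨j, h', u, m, h1, h2⟩ := hex
  obtain ⟨j, h', u, m, h1, h2, h3, h4⟩ := hb g ⟨j, h', u, m, h1.congr hg, h2⟩
  have h5 : b g ≤ Finset.univ.sup b := Finset.le_sup (Finset.mem_univ g)
  exact ⟨j, h', u, m, h1.congr fun i hi => (hg i hi).symm, h2, h3.trans h5, h4.trans h5⟩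

/-- One function bounds the contents for countably many predicates. -/
theorem bound_all {ι : Type*} [Countable ι] (R : ι → ℕ → Prop) (V : ℕ → ℕ → Set (ℕ → ℕ)) :
    ∃ G : ℕ → ℕ, Monotone G ∧ (∀ k, k < G k) ∧ ∀ x, ∃ N, ∀ n, N ≤ n → ∀ h : ℕ → ℕ,
      (∀ i < n, h i ≤ n) →
      (∃ j h' u m, Legal (R x) n h j h' u ∧ Dec (V n) j m h') →
      ∃ j h' u m, Legal (R x) n h j h' u ∧ Dec (V n) j m h' ∧ j ≤ G n ∧ m ≤ G n := by
  classical
  rcases isEmpty_or_nonempty ι with hι | hι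
  · exact ⟨fun n => n + 1, fun a b h => Nat.succ_le_succ h, fun k => Nat.lt_succ_self k,
      fun x => (hι.false x).elim⟩
  obtain ⟨en, hen⟩ := exists_surjective_nat ι
  choose B hB using fun i n => bound_one (R (en i)) (V n) n
  refine ⟨fun n => n + 1 + ∑ i ∈ Finset.range (n + 1), ∑ k ∈ Finset.range (n + 1), B i k,
    fun a b h => ?_, fun k => ?_, fun x => ?_⟩
  · have hr : Finset.range (a + 1) ⊆ Finset.range (b + 1) :=
      Finset.range_subset_range.2 (by omega)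
    have h1 : ∑ i ∈ Finset.range (a + 1), ∑ k ∈ Finset.range (a + 1), B i k ≤
        ∑ i ∈ Finset.range (b + 1), ∑ k ∈ Finset.range (b + 1), B i k :=
      (Finset.sum_le_sum fun i _ => Finset.sum_le_sum_of_subset hr).trans
        (Finset.sum_le_sum_of_subset hr)
    change a + 1 + _ ≤ b + 1 + _
    omega
  · change k < k + 1 + _
    omega
  · obtain ⟨i, rfl⟩ := hen x
    refine ⟨i, fun n hn h hh hex => ?_⟩
    obtain ⟨j, h', u, m, h1, h2, h3, h4⟩ := hB i n h hh hex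
    have h5 : B i n ≤ ∑ i ∈ Finset.range (n + 1), ∑ k ∈ Finset.range (n + 1), B i k :=
      (Finset.single_le_sum (f := fun k => B i k) (fun _ _ => Nat.zero_le _)
        (Finset.mem_range.2 (Nat.lt_succ_self n))).trans
        (Finset.single_le_sum (f := fun i => ∑ k ∈ Finset.range (n + 1), B i k)
          (fun _ _ => Nat.zero_le _) (Finset.mem_range.2 (by omega)))
    refine ⟨j, h', u, m, h1, h2, ?_, ?_⟩
    · change j ≤ n + 1 + _
      omega
    · change m ≤ n + 1 + _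
      omega

/-- Well-founded recursion with a predicate. -/
theorem exists_rec {I X : Type*} [LinearOrder I] [WellFoundedLT I] [Inhabited X]
    (P : I → (I → X) → X → Prop)
    (hc : ∀ a D D' d, (∀ b < a, D b = D' b) → P a D d → P a D' d)
    (hx : ∀ a D, (∀ b < a, P b D (D b)) → ∃ d, P a D d) : ∃ D : I → X, ∀ a, P a D (D a) := by
  classical
  let ex : ∀ a : I, (∀ b, b < a → X) → I → X := fun a r b => if h : b < a then r b h else default
  let D : I → X := WellFoundedLT.fix fun a r =>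
    if h : ∃ d, P a (ex a r) d then h.choose else default
  have hD : ∀ a, D a = if h : ∃ d, P a (ex a fun b _ => D b) d then h.choose else default := by
    intro a
    exact WellFoundedLT.fix_eq _ a
  refine ⟨D, fun a => ?_⟩
  induction a using WellFoundedLT.induction with
  | ind a ih =>
    obtain ⟨d, hd⟩ := hx a D ih
    have he : ∀ b < a, D b = ex a (fun b _ => D b) b := fun b hb => by simp [ex, hb]
    have h : ∃ d, P a (ex a fun b _ => D b) d := ⟨d, hc a _ _ d he hd⟩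
    have h2 : P a (ex a fun b _ => D b) (D a) := by
      rw [hD a, dif_pos h]
      exact h.choose_spec
    exact hc a _ _ _ (fun b hb => (he b hb).symm) h2

/-- The data constructed at one stage. -/
structure Dat where
  /-- points -/
  w : Set ℕ
  /-- markers -/
  v : Set ℕ
  /-- the function -/
  h : ℕ → ℕ
  /-- the countable family -/
  F : Set (ℕ → ℕ)
  /-- the bound -/
  G : ℕ → ℕ

instance : Inhabited Dat := ⟨⟨∅, ∅, fun _ => 0, ∅, fun _ => 0⟩⟩

variable {I : Type*} [LinearOrder I]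

/-- `m` is far from the earlier sets, as promised by `p`. -/
def RR (D : I → Dat) (p : Finset (I × (ℕ → ℕ))) (m : ℕ) : Prop :=
  ∀ x ∈ p, Far x.2 (D x.1).w m

/-- `p` is a finite set of promises about stages before `a`. -/
def Ok (D : I → Dat) (a : I) (p : Finset (I × (ℕ → ℕ))) : Prop :=
  ∀ x ∈ p, x.1 < a ∧ x.2 ∈ (D x.1).F

/-- The requirements on the data `d` of stage `a`. -/
structure Good (r : I → ℕ → ℕ) (U : I → ℕ → ℕ → Set (ℕ → ℕ)) (a : I) (D : I → Dat)
    (d : Dat) : Prop where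
  cF : d.F.Countable
  mono : ∀ f ∈ d.F, Monotone f ∧ ∀ k, k < f k
  sub : ∀ b < a, (D b).F ⊆ d.F
  comp : ∀ f ∈ d.F, ∀ g ∈ d.F, f ∘ g ∈ d.F
  rle : ∃ f ∈ d.F, ∀ k, r a k ≤ f k
  GF : d.G ∈ d.F
  MG : ∀ p, Ok D a p → ∃ N, ∀ n, N ≤ n → ∀ h : ℕ → ℕ, (∀ i < n, h i ≤ n) →
    (∃ j h' u m, Legal (RR D p) n h j h' u ∧ Dec (U a n) j m h') →
    ∃ j h' u m, Legal (RR D p) n h j h' u ∧ Dec (U a n) j m h' ∧ j ≤ d.G n ∧ m ≤ d.G n
  T1 : ∀ b < a, ∀ f ∈ (D b).F, ∃ N, ∀ m ∈ d.w, N ≤ m → Far f (D b).w m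
  T2 : ∀ p, Ok D a p → ∀ f ∈ d.F, {e | RR D p e ∧ Far f d.w e}.Infinite
  T3 : ∀ b < a, (∃ n, ∀ m, d.h ∉ U b n m) ∨
    ∀ N, ∃ n, N ≤ n ∧ ∃ m, m ≤ (D b).G n ∧ d.h ∈ U b n m
  T3' : (∃ n, ∀ m, d.h ∉ U a n m) ∨ ∀ N, ∃ n, N ≤ n ∧ ∃ m, m ≤ d.G n ∧ d.h ∈ U a n m
  vw : d.v ⊆ d.w
  vinf : d.v.Infinite
  T4 : ∀ f ∈ d.F, ∃ N, ∀ m ∈ d.v, N ≤ m → ∀ m' ∈ d.v, m < m' → f m ≤ m'
  T5 : ∀ i, ∃ m ∈ d.w, i ≤ m ∧ m < d.h i

theorem ok_congr {D D' : I → Dat} {a : I} (h : ∀ b < a, D b = D' b) {p : Finset (I × (ℕ → ℕ))}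
    (hp : Ok D' a p) : Ok D a p := fun x hx => ⟨(hp x hx).1, by
  rw [h _ (hp x hx).1]; exact (hp x hx).2⟩

theorem RR_congr {D D' : I → Dat} {a : I} (h : ∀ b < a, D b = D' b) {p : Finset (I × (ℕ → ℕ))}
    (hp : Ok D' a p) : RR D p = RR D' p := by
  funext m
  simp only [RR, eq_iff_iff]
  exact ⟨fun H x hx => by rw [← h _ (hp x hx).1]; exact H x hx,
    fun H x hx => by rw [h _ (hp x hx).1]; exact H x hx⟩

theorem good_congr {r : I → ℕ → ℕ} {U : I → ℕ → ℕ → Set (ℕ → ℕ)} (a : I) (D D' : I → Dat)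
    (d : Dat) (h : ∀ b < a, D b = D' b) (H : Good r U a D d) : Good r U a D' d where
  cF := H.cF
  mono := H.mono
  sub b hb := by rw [← h b hb]; exact H.sub b hb
  comp := H.comp
  rle := H.rle
  GF := H.GF
  MG p hp := by rw [← RR_congr h hp]; exact H.MG p (ok_congr h hp)
  T1 b hb f hf := by
    rw [← h b hb] at hf ⊢
    exact H.T1 b hb f hf
  T2 p hp f hf := by
    have := H.T2 p (ok_congr h hp) f hf
    rwa [RR_congr h hp] at this
  T3 b hb := by rw [← h b hb]; exact H.T3 b hb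
  T3' := H.T3'
  vw := H.vw
  vinf := H.vinf
  T4 := H.T4
  T5 := H.T5

theorem Far.mono {f g : ℕ → ℕ} (h : ∀ k, f k ≤ g k) {w : Set ℕ} {e : ℕ} (H : Far g w e) :
    Far f w e := fun m hm => (h _).trans (H m hm)

/-- Finitely many functions of a composition-closed family have an upper bound in the family. -/
theorem exists_upper {F : Set (ℕ → ℕ)} (hm : ∀ f ∈ F, Monotone f ∧ ∀ k, k < f k)
    (hcomp : ∀ f ∈ F, ∀ g ∈ F, f ∘ g ∈ F) (hne : F.Nonempty) (S : Finset (ℕ → ℕ))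
    (hS : ∀ f ∈ S, f ∈ F) : ∃ g ∈ F, ∀ f ∈ S, ∀ k, f k ≤ g k := by
  classical
  induction S using Finset.induction_on with
  | empty => exact ⟨hne.some, hne.some_mem, fun f hf => absurd hf (Finset.notMem_empty f)⟩
  | insert a S _ ih =>
    obtain ⟨g, hg, hgS⟩ := ih fun f hf => hS f (Finset.mem_insert_of_mem hf)
    have ha := hS a (Finset.mem_insert_self a S)
    refine ⟨a ∘ g, hcomp a ha g hg, fun f hf k => ?_⟩
    rcases Finset.mem_insert.1 hf with rfl | hf
    · exact (hm _ ha).1 ((hm g hg).2 k).le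
    · exact (hgS f hf k).trans ((hm a ha).2 (g k)).le

/-- Common far points exist. -/
theorem far_infinite {r : I → ℕ → ℕ} {U : I → ℕ → ℕ → Set (ℕ → ℕ)} {a : I} {D : I → Dat}
    (H : ∀ b < a, Good r U b D (D b)) (p : Finset (I × (ℕ → ℕ))) (hp : Ok D a p) :
    {e | RR D p e}.Infinite := by
  classical
  rcases p.eq_empty_or_nonempty with rfl | hne
  · have : {e | RR D (∅ : Finset (I × (ℕ → ℕ))) e} = Set.univ := by
      ext e; simp [RR]
    rw [this]; exact Set.infinite_univ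
  obtain ⟨x₀, hx₀, hmax⟩ := Finset.exists_max_image p Prod.fst hne
  have hb := H x₀.1 (hp x₀ hx₀).1
  obtain ⟨g, hg, hgS⟩ := exists_upper hb.mono hb.comp ⟨_, hb.GF⟩
    ((p.filter fun x => x.1 = x₀.1).image Prod.snd) (by
      intro f hf
      obtain ⟨x, hx, rfl⟩ := Finset.mem_image.1 hf
      obtain ⟨hx1, hx2⟩ := Finset.mem_filter.1 hx
      have := (hp x hx1).2
      rwa [hx2] at this)
  refine (hb.T2 (p.filter fun x => x.1 < x₀.1) (fun x hx => ?_) g hg).mono fun e he x hx => ?_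
  · obtain ⟨hx1, hx2⟩ := Finset.mem_filter.1 hx
    exact ⟨hx2, (hp x hx1).2⟩
  · rcases (hmax x hx).lt_or_eq with hlt | heq
    · exact he.1 x (Finset.mem_filter.2 ⟨hx, hlt⟩)
    · have h1 : Far g (D x.1).w e := by rw [heq]; exact he.2
      exact h1.mono (hgS x.2 (Finset.mem_image.2 ⟨x, Finset.mem_filter.2 ⟨hx, heq⟩, rfl⟩))

/-- A monotone majorant above the identity. -/
theorem exists_major (r : ℕ → ℕ) : ∃ f : ℕ → ℕ, Monotone f ∧ (∀ k, k < f k) ∧ ∀ k, r k ≤ f k := by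
  refine ⟨fun n => n + 1 + ∑ i ∈ Finset.range (n + 1), r i, fun a b h => ?_, fun k => ?_,
    fun k => ?_⟩
  · have h1 : ∑ i ∈ Finset.range (a + 1), r i ≤ ∑ i ∈ Finset.range (b + 1), r i :=
      Finset.sum_le_sum_of_subset (Finset.range_subset_range.2 (by omega))
    change a + 1 + _ ≤ b + 1 + _
    omega
  · change k < k + 1 + _
    omega
  · have h1 : r k ≤ ∑ i ∈ Finset.range (k + 1), r i :=
      Finset.single_le_sum (f := r) (fun _ _ => Nat.zero_le _)
        (Finset.mem_range.2 (Nat.lt_succ_self k))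
    change r k ≤ k + 1 + _
    omega

/-- Composition of a list. -/
def compL {B : Type*} (fn : B → ℕ → ℕ) : List B → ℕ → ℕ
  | [] => id
  | b :: l => fn b ∘ compL fn l

theorem compL_append {B : Type*} (fn : B → ℕ → ℕ) (l l' : List B) :
    compL fn (l ++ l') = compL fn l ∘ compL fn l' := by
  induction l with
  | nil => rfl
  | cons b l ih => simp only [List.cons_append, compL, ih, Function.comp_assoc]

/-- The closure of a countable family under composition. -/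
theorem exists_closure (S : Set (ℕ → ℕ)) (hS : S.Countable)
    (hm : ∀ f ∈ S, Monotone f ∧ ∀ k, k < f k) :
    ∃ F : Set (ℕ → ℕ), F.Countable ∧ S ⊆ F ∧ (∀ f ∈ F, Monotone f ∧ ∀ k, k < f k) ∧
      ∀ f ∈ F, ∀ g ∈ F, f ∘ g ∈ F := by
  have : Countable S := hS
  refine ⟨Set.range fun l : {l : List S // l ≠ []} => compL (fun b : S => (b : ℕ → ℕ)) l.1,
    Set.countable_range _, fun f hf => ⟨⟨[⟨f, hf⟩], by simp⟩, by simp [compL]⟩, ?_, ?_⟩
  · rintro f ⟨⟨l, hl⟩, rfl⟩
    have h1 : Monotone (compL (fun b : S => (b : ℕ → ℕ)) l) := by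
      clear hl
      induction l with
      | nil => exact monotone_id
      | cons b l ih => exact (hm b b.2).1.comp ih
    have h2 : ∀ l : List S, ∀ k, k ≤ compL (fun b : S => (b : ℕ → ℕ)) l k := by
      intro l
      induction l with
      | nil => exact fun k => le_rfl
      | cons b l ih => exact fun k => (ih k).trans ((hm b b.2).2 _).le
    refine ⟨h1, fun k => ?_⟩
    cases l with
    | nil => exact absurd rfl hl
    | cons b l => exact (h2 l k).trans_lt ((hm b b.2).2 _)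
  · rintro f ⟨⟨l, hl⟩, rfl⟩ g ⟨⟨l', hl'⟩, rfl⟩
    exact ⟨⟨l ++ l', by simp [hl]⟩, by simp only [compL_append]⟩

end Pool.Agent.Helper48.PS
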