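import Pool.Agent.Helper48.PS.Build

/-!
# The recursion of length `ω₁`: existence
-/

set_option autoImplicit false

namespace Pool.Agent.Helper48.PS

variable {I : Type*} [LinearOrder I]

/-- The set of promises available at stage `a` is countable. -/
theorem countable_atoms (D : I → Dat) (a : I) (hI : (Set.Iio a).Countable)
    (hF : ∀ b < a, (D b).F.Countable) :
    {x : I × (ℕ → ℕ) | x.1 < a ∧ x.2 ∈ (D x.1).F}.Countable := by
  have h : {x : I × (ℕ → ℕ) | x.1 < a ∧ x.2 ∈ (D x.1).F} ⊆
      ⋃ b ∈ Set.Iio a, Prod.mk b '' (D b).F := by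
    rintro ⟨b, f⟩ ⟨h1, h2⟩
    exact Set.mem_biUnion (x := b) h1 ⟨f, h2, rfl⟩
  exact (Set.Countable.biUnion hI fun b hb => (hF b hb).image _).mono h

theorem exists_good {r : I → ℕ → ℕ} {U : I → ℕ → ℕ → Set (ℕ → ℕ)}
    (hU : ∀ a n m h, h ∈ U a n m → ∃ j, Dec (U a n) j m h)
    (hI : ∀ a : I, (Set.Iio a).Countable) (a : I) (D : I → Dat)
    (H : ∀ b < a, Good r U b D (D b)) : ∃ d, Good r U a D d := by
  classical
  let At : Set (I × (ℕ → ℕ)) := {x | x.1 < a ∧ x.2 ∈ (D x.1).F}
  have hAt : At.Countable := countable_atoms D a (hI a) fun b hb => (H b hb).cF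
  have cAt : Countable At := hAt
  have cIic : Countable (Set.Iic a) := by
    have : (Set.Iic a).Countable := by
      rw [← Set.Iio_insert]
      exact (hI a).insert a
    exact this
  -- the bound for the new open sets
  have cOk : Countable {p : Finset (I × (ℕ → ℕ)) // Ok D a p} := by
    have h1 : Function.Injective
        (fun p : {p : Finset (I × (ℕ → ℕ)) // Ok D a p} => p.1.subtype (· ∈ At)) := by
      rintro ⟨p, hp⟩ ⟨q, hq⟩ h
      apply Subtype.ext
      ext x
      have h2 := congrArg (fun s : Finset At => s.map (Function.Embedding.subtype _)) h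
      simp only [Finset.subtype_map] at h2
      have e1 : p.filter (· ∈ At) = p := Finset.filter_true_of_mem fun x hx => hp x hx
      have e2 : q.filter (· ∈ At) = q := Finset.filter_true_of_mem fun x hx => hq x hx
      rw [e1, e2] at h2
      change x ∈ p ↔ x ∈ q
      rw [h2]
    exact h1.countable
  obtain ⟨G, hGm, hGid, hG⟩ := bound_all
    (fun p : {p : Finset (I × (ℕ → ℕ)) // Ok D a p} => RR D p.1) (U a)
  obtain ⟨r', hr'm, hr'id, hr'⟩ := exists_major (r a)
  obtain ⟨F, hFc, hFS, hFm, hFcomp⟩ := exists_closure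
    ((⋃ b ∈ Set.Iio a, (D b).F) ∪ {G, r'})
    ((Set.Countable.biUnion (hI a) fun b hb => (H b hb).cF).union
      (Set.toFinite _).countable) (by
      rintro f (hf | hf)
      · obtain ⟨b, hb, hf⟩ := Set.mem_iUnion₂.1 hf
        exact (H b hb).mono f hf
      · rcases hf with rfl | hf
        · exact ⟨hGm, hGid⟩
        · rw [Set.mem_singleton_iff] at hf
          subst hf
          exact ⟨hr'm, hr'id⟩)
  have hsub : ∀ b < a, (D b).F ⊆ F := fun b hb f hf =>
    hFS (Or.inl (Set.mem_biUnion (x := b) hb hf))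
  have hGF : G ∈ F := hFS (Or.inr (Or.inl rfl))
  have hrF : r' ∈ F := hFS (Or.inr (Or.inr rfl))
  have cF : Countable F := hFc
  -- translation of finite sets of atoms
  let tr : Finset At → Finset (I × (ℕ → ℕ)) := fun p => p.map (Function.Embedding.subtype _)
  have htr : ∀ p e, RR D (tr p) e ↔ ∀ x ∈ p, Far x.1.2 (D x.1.1).w e := by
    intro p e
    constructor
    · intro h x hx
      exact h x.1 (Finset.mem_map_of_mem _ hx)
    · intro h x hx
      obtain ⟨y, hy, rfl⟩ := Finset.mem_map.1 hx
      exact h y hy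
  have hok : ∀ p, Ok D a (tr p) := by
    intro p x hx
    obtain ⟨y, -, rfl⟩ := Finset.mem_map.1 hx
    exact y.2
  let GG : Set.Iic a → ℕ → ℕ := fun c => if c.1 = a then G else (D c.1).G
  obtain ⟨w, v, h, S1, S2, S3, S4, S5, S6, S7⟩ := stage (A := At) (B := F) (C := Set.Iic a)
    (fun x e => Far x.1.2 (D x.1.1).w e) (fun b => b.1)
    (fun b => (hFm b b.2).1) (fun b => (hFm b b.2).2)
    (fun p => by
      refine (far_infinite H (tr p) (hok p)).mono fun e he => ?_
      exact (htr p e).1 he)
    (fun c => U c.1) (fun c => hU c.1) GG (fun c => {x | x.1.1 < c.1})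
    (by
      intro c p hp
      have hp' : Ok D c.1 (tr p) := by
        intro x hx
        obtain ⟨y, hy, rfl⟩ := Finset.mem_map.1 hx
        exact ⟨hp y hy, y.2.2⟩
      have hRR : (fun e => ∀ x ∈ p, Far x.1.2 (D x.1.1).w e) = RR D (tr p) := by
        funext e
        exact propext (htr p e).symm
      rw [hRR]
      by_cases hca : c.1 = a
      · simp only [GG, if_pos hca]
        rw [hca] at hp' ⊢
        exact hG ⟨tr p, hp'⟩
      · simp only [GG, if_neg hca]
        exact (H c.1 (lt_of_le_of_ne c.2 hca)).MG (tr p) hp')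
    (by
      intro c x hx
      have hx' : c.1 ≤ x.1.1 := not_lt.1 hx
      have hca : c.1 < a := hx'.trans_lt x.2.1
      have hGx : (D c.1).G ∈ (D x.1.1).F := by
        rcases hx'.lt_or_eq with h1 | h1
        · exact (H _ x.2.1).sub _ h1 (H _ hca).GF
        · rw [h1]; exact (H _ x.2.1).GF
      have hxb := H _ x.2.1
      have hG1 := hxb.mono _ hGx
      have hx2 := hxb.mono _ x.2.2
      refine ⟨⟨(x.1.1, x.1.2 ∘ ((D c.1).G ∘ (D c.1).G)), x.2.1,
        hxb.comp _ x.2.2 _ (hxb.comp _ hGx _ hGx)⟩, fun e he z hez hz => ?_⟩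
      simp only [GG, if_neg hca.ne] at hz
      have hz' : z ≤ (D c.1).G ((D c.1).G e) := hz.trans (hG1.1 (hG1.2 e))
      have he' : ∀ m ∈ (D x.1.1).w,
        x.1.2 ((D c.1).G ((D c.1).G (min m e))) ≤ max m e := he
      intro m hm
      have h1 := he' m hm
      rcases lt_trichotomy m e with h | h | h
      · rw [min_eq_left h.le, max_eq_right h.le] at h1
        rw [min_eq_left (by omega), max_eq_right (by omega)]
        have h2 := hx2.1 (show m ≤ (D c.1).G ((D c.1).G m) from
          ((hG1.2 m).trans (hG1.2 _)).le)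
        omega
      · subst h
        rw [min_self, max_self] at h1
        have h2 := hx2.2 ((D c.1).G ((D c.1).G m))
        have h3 := (hG1.2 m).trans (hG1.2 _)
        omega
      · rw [min_eq_right h.le, max_eq_left h.le] at h1
        have h2 := hx2.2 ((D c.1).G ((D c.1).G e))
        have h3 := hx2.1 hz'
        rw [min_eq_right (by omega), max_eq_left (by omega)]
        omega)
  refine ⟨⟨w, v, h, F, G⟩, hFc, hFm, hsub, hFcomp, ⟨r', hrF, hr'⟩, hGF,
    fun p hp => hG ⟨p, hp⟩, fun b hb f hf => S1 ⟨(b, f), hb, hf⟩, fun p hp f hf => ?_,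
    fun b hb => ?_, ?_, S4, S5, fun f hf => S6 ⟨f, hf⟩, S7⟩
  · refine (S2 (p.subtype (· ∈ At)) ⟨f, hf⟩).mono fun e he => ⟨fun x hx => ?_, he.2⟩
    exact he.1 ⟨x, hp x hx⟩ (Finset.mem_subtype.2 hx)
  · have := S3 ⟨b, hb.le⟩
    simp only [GG, if_neg hb.ne] at this
    exact this
  · have := S3 ⟨a, le_rfl⟩
    simp only [GG, if_true] at this
    exact this

/-- The construction for a well-order with countable initial segments. -/
theorem exists_all [WellFoundedLT I] {r : I → ℕ → ℕ} {U : I → ℕ → ℕ → Set (ℕ → ℕ)}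
    (hU : ∀ a n m h, h ∈ U a n m → ∃ j, Dec (U a n) j m h)
    (hI : ∀ a : I, (Set.Iio a).Countable) : ∃ D : I → Dat, ∀ a, Good r U a D (D a) :=
  exists_rec (Good r U) good_congr fun a D H => exists_good hU hI a D H

end Pool.Agent.Helper48.PS
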