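import Pool.Agent.Helper48.PS.Build2

/-!
# The sets and functions under CH
-/

set_option autoImplicit false

namespace Pool.Agent.Helper48.PS

open Cardinal Topology

/-- The open set with a given code. -/
def opn (c : Set (List ℕ)) : Set (ℕ → ℕ) := {h | ∃ k : ℕ, (List.range k).map h ∈ c}

theorem opn_dec {c : ℕ → Set (List ℕ)} {m : ℕ} {h : ℕ → ℕ} (hh : h ∈ opn (c m)) :
    ∃ j, Dec (fun m => opn (c m)) j m h := by
  obtain ⟨k, hk⟩ := hh
  refine ⟨k, fun z hz => ⟨k, ?_⟩⟩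
  have : (List.range k).map z = (List.range k).map h :=
    List.map_congr_left fun i hi => hz i (List.mem_range.1 hi)
  rw [this]
  exact hk

theorem exists_code {V : Set (ℕ → ℕ)} (hV : IsOpen V) : ∃ c, opn c = V := by
  refine ⟨{l | ∀ z : ℕ → ℕ, (∀ i < l.length, z i = l.getD i 0) → z ∈ V}, ?_⟩
  ext h
  constructor
  · rintro ⟨k, hk⟩
    refine hk h fun i hi => ?_
    simp only [List.length_map, List.length_range] at hi
    simp [List.getD, hi]
  · intro hh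
    obtain ⟨s, ⟨x, n, rfl⟩, hs1, hs2⟩ :=
      (PiNat.isTopologicalBasis_cylinders (fun _ : ℕ => ℕ)).exists_subset_of_mem_open hh hV
    refine ⟨n, fun z hz => hs2 ?_⟩
    rw [PiNat.mem_cylinder_iff] at hs1 ⊢
    intro i hi
    rw [← hs1 i hi]
    have := hz i (by simpa using hi)
    rw [this]
    simp [List.getD, hi]

theorem mk_codes : #((ℕ → ℕ) × (ℕ → ℕ → Set (List ℕ))) = 𝔠 := by
  simp [Cardinal.mk_pi]

/-- Dominating countably many functions. -/
theorem exists_dom {F : Set (ℕ → ℕ)} (hF : F.Countable) :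
    ∃ s : ℕ → ℕ, ∀ f ∈ F, ∃ N, ∀ n, N ≤ n → f n ≤ s n := by
  rcases F.eq_empty_or_nonempty with rfl | hne
  · exact ⟨fun _ => 0, fun f hf => absurd hf (Set.notMem_empty f)⟩
  obtain ⟨en, rfl⟩ := hF.exists_eq_range hne
  refine ⟨fun n => (Finset.range (n + 1)).sup fun i => en i n, ?_⟩
  rintro _ ⟨i, rfl⟩
  exact ⟨i, fun n hn => Finset.le_sup (f := fun i => en i n)
    (Finset.mem_range.2 (Nat.lt_succ_of_le hn))⟩

/-- The combinatorial data. -/
structure Data (I : Type) [LinearOrder I] where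
  w : I → Set ℕ
  v : I → Set ℕ
  h : I → ℕ → ℕ
  s : I → ℕ → ℕ
  cnt : ∀ a : I, (Set.Iio a).Countable
  unc : ¬ Countable I
  serve : ∀ a i, ∃ m ∈ w a, i ≤ m ∧ m < h a i
  vw : ∀ a, v a ⊆ w a
  vinf : ∀ a, (v a).Infinite
  scale : ∀ f : ℕ → ℕ, ∃ g : ℕ → ℕ, Monotone g ∧ (∀ k, k < g k) ∧ (∀ k, f k ≤ g k) ∧ ∃ δ : I,
    (∀ b, δ ≤ b → ∀ a, b < a → ∃ N, ∀ m ∈ w a, N ≤ m → Far g (w b) m) ∧
    (∀ a, δ ≤ a → ∃ N, ∀ m ∈ v a, N ≤ m → ∀ m' ∈ v a, m < m' → g m ≤ m') ∧
    (∀ a, δ ≤ a → ∃ N, ∀ n, N ≤ n → g n ≤ s a n)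
  menger : ∀ U : ℕ → ℕ → Set (ℕ → ℕ), (∀ n m, IsOpen (U n m)) → ∃ (δ : I) (G : ℕ → ℕ),
    ∀ a, δ ≤ a → (∃ n, ∀ m, h a ∉ U n m) ∨ ∀ N, ∃ n, N ≤ n ∧ ∃ m, m ≤ G n ∧ h a ∈ U n m

theorem exists_data (ch : (ℵ₁ : Cardinal.{0}) = 𝔠) : ∃ (I : Type) (_ : LinearOrder I), Nonempty (Data I) := by
  classical
  let I : Type := (Cardinal.aleph 1 : Cardinal.{0}).ord.ToType
  have hcard : #I = ℵ₁ := mk_ord_toType _
  have hcnt : ∀ a : I, (Set.Iio a).Countable := by
    intro a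
    rw [← Cardinal.le_aleph0_iff_set_countable, ← Cardinal.lt_aleph_one_iff]
    have h := Cardinal.mk_Iio_lt a (by rw [hcard]; simp [I])
    rwa [hcard] at h
  have hunc : ¬ Countable I := by
    rw [← Cardinal.mk_le_aleph0_iff, hcard, not_le]
    exact Cardinal.aleph0_lt_aleph_one
  obtain ⟨e⟩ : Nonempty (I ≃ (ℕ → ℕ) × (ℕ → ℕ → Set (List ℕ))) := by
    rw [← Cardinal.eq, hcard, mk_codes, ch]
  obtain ⟨D, hD⟩ := exists_all (r := fun a => (e a).1)
    (U := fun a n m => opn ((e a).2 n m)) (fun a n m h hh => opn_dec hh) hcnt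
  choose s hs using fun a => exists_dom (hD a).cF
  have hsub : ∀ a b, a ≤ b → (D a).F ⊆ (D b).F := by
    intro a b hab
    rcases hab.lt_or_eq with h | rfl
    · exact (hD b).sub a h
    · exact subset_rfl
  refine ⟨I, inferInstance, ⟨{
    w := fun a => (D a).w
    v := fun a => (D a).v
    h := fun a => (D a).h
    s := s
    cnt := hcnt
    unc := hunc
    serve := fun a => (hD a).T5
    vw := fun a => (hD a).vw
    vinf := fun a => (hD a).vinf
    scale := ?_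
    menger := ?_ }⟩⟩
  · intro f
    let δ : I := e.symm (f, fun _ _ => ∅)
    obtain ⟨g, hg, hfg⟩ := (hD δ).rle
    have hfg' : ∀ k, f k ≤ g k := by simpa [δ] using hfg
    refine ⟨g, ((hD δ).mono g hg).1, ((hD δ).mono g hg).2, hfg', δ, fun b hb a hab => ?_,
      fun a ha => ?_, fun a ha => ?_⟩
    · exact (hD a).T1 b hab g (hsub δ b hb hg)
    · exact (hD a).T4 g (hsub δ a ha hg)
    · exact hs a g (hsub δ a ha hg)
  · intro U hU
    choose c hc using fun n m => exists_code (hU n m)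
    let δ : I := e.symm (fun _ => 0, c)
    have he : (e δ).2 = c := by simp [δ]
    refine ⟨δ, (D δ).G, fun a ha => ?_⟩
    rcases ha.lt_or_eq with h | h
    · have := (hD a).T3 δ h
      simpa only [he, hc] using this
    · have := (hD δ).T3'
      rw [← h]
      simpa only [he, hc] using this

end Pool.Agent.Helper48.PS
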