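import Mathlib

/-!
# Menger and Scheepers spaces
-/

set_option autoImplicit false

namespace Pool.Agent.Helper48.PS

/-- `Z` is Menger: for every sequence of open covers there are finite subfamilies which together
cover `Z`. -/
def IsMenger (Z : Type*) [TopologicalSpace Z] : Prop :=
  ∀ U : ℕ → Set (Set Z), (∀ n, (∀ u ∈ U n, IsOpen u) ∧ ⋃₀ U n = Set.univ) →
    ∃ F : ℕ → Set (Set Z), (∀ n, F n ⊆ U n ∧ (F n).Finite) ∧ ⋃ n, ⋃₀ F n = Set.univ

/-- `Z` is Scheepers: for every sequence of open covers there are finite subfamilies such that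
every finite subset of `Z` is contained in the union of one of them. -/
def IsScheepers (Z : Type*) [TopologicalSpace Z] : Prop :=
  ∀ U : ℕ → Set (Set Z), (∀ n, (∀ u ∈ U n, IsOpen u) ∧ ⋃₀ U n = Set.univ) →
    ∃ F : ℕ → Set (Set Z), (∀ n, F n ⊆ U n ∧ (F n).Finite) ∧
      ∀ A : Set Z, A.Finite → ∃ n, A ⊆ ⋃₀ F n

/-- A set of reals is productively Menger. -/
def ProductivelyMenger (X : Set ℝ) : Prop :=
  ∀ Y : Set ℝ, IsMenger Y → IsMenger ↥(X ×ˢ Y)

/-- A set of reals is productively Scheepers. -/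
def ProductivelyScheepers (X : Set ℝ) : Prop :=
  ∀ Y : Set ℝ, IsScheepers Y → IsScheepers ↥(X ×ˢ Y)

end Pool.Agent.Helper48.PS
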