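import Pool.Agent.Helper48.PS.NotM

/-!
# From the Baire space to the real line, and the main theorem
-/

set_option autoImplicit false

namespace Pool.Agent.Helper48.PS

open Topology Cardinal

/-- The graph of a constant. -/
def gr (k : ℕ) : ℕ → Bool := fun j => decide (k = j)

theorem gr_emb : IsEmbedding gr := by
  refine ⟨⟨?_⟩, fun a b h => ?_⟩
  · symm
    rw [DiscreteTopology.eq_bot (α := ℕ)]
    refine eq_bot_of_singletons_open fun k => ?_
    refine isOpen_induced_iff.2 ⟨(fun f : ℕ → Bool => f k) ⁻¹' {true},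
      (isOpen_discrete ({true} : Set Bool)).preimage (continuous_apply k), ?_⟩
    ext a
    simp [gr]
  · have := congrFun h b
    simpa [gr] using this

theorem exists_emb : ∃ f : (ℕ → ℕ) → ℝ, IsEmbedding f := by
  have h1 : IsEmbedding (Pi.map fun _ : ℕ => gr) := IsEmbedding.piMap fun _ => gr_emb
  exact ⟨_, ((IsEmbedding.subtypeVal.comp cantorSetHomeomorphNatToBool.symm.isEmbedding).comp
    cantorSpaceHomeomorphNatToCantorSpace.symm.isEmbedding).comp h1⟩

/-- **Main theorem.** Under CH there is a set of reals which is productively Scheepers but not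
productively Menger. -/
theorem main (ch : (ℵ₁ : Cardinal.{0}) = 𝔠) :
    ∃ X : Set ℝ, ProductivelyScheepers X ∧ ¬ ProductivelyMenger X := by
  obtain ⟨I, _, ⟨D⟩⟩ := exists_data ch
  obtain ⟨f, hf⟩ := exists_emb
  refine ⟨f '' D.X, fun Y hY => ?_, fun hcon => ?_⟩
  · have h1 : SSeq (D.X × Y) := D.prod_scheepers hY.sseq
    have h2 : SSeq ↥((f '' D.X) ×ˢ Y) :=
      h1.homeo (((hf.homeomorphImage D.X).prodCongr (Homeomorph.refl Y)).trans
        (Homeomorph.Set.prod _ _).symm)
    exact h2.isScheepers
  · have h1 : IsMenger (f '' D.M) := (D.menger_M.homeo (hf.homeomorphImage D.M)).isMenger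
    have h2 : MSeq ↥((f '' D.X) ×ˢ (f '' D.M)) := (hcon _ h1).mseq
    exact D.not_menger (h2.homeo ((Homeomorph.Set.prod _ _).trans
      ((hf.homeomorphImage D.X).prodCongr (hf.homeomorphImage D.M)).symm))

end Pool.Agent.Helper48.PS
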