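import Pool.Agent.Helper48.PS.ProdS

/-!
# The second set is Menger, the product is not
-/

set_option autoImplicit false

namespace Pool.Agent.Helper48.PS

open Topology

variable {I : Type} [LinearOrder I]

/-- The second set. -/
def Data.M (D : Data I) : Set (ℕ → ℕ) := Set.range D.h

theorem Data.nonempty (D : Data I) : Nonempty I := by
  by_contra h
  rw [not_nonempty_iff] at h
  exact D.unc inferInstance

/-- **The set `M` is Menger.** -/
theorem Data.menger_M (D : Data I) : MSeq D.M := by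
  classical
  intro V ho hm hc
  choose U hU hUV using fun n m => isOpen_induced_iff.1 (ho n m)
  obtain ⟨δ, G, hG⟩ := D.menger U hU
  have hmem : ∀ a n m, D.h a ∈ U n m ↔ (⟨D.h a, a, rfl⟩ : D.M) ∈ V n m := by
    intro a n m
    rw [← hUV n m]
    rfl
  obtain ⟨i₀⟩ := D.nonempty
  obtain ⟨en, hen⟩ := ((D.cnt δ).insert i₀).exists_eq_range (Set.insert_nonempty _ _)
  choose M hM using fun (i n : ℕ) => hc n (⟨D.h (en i), en i, rfl⟩ : D.M)
  refine ⟨fun n => max (G n) ((Finset.range (n + 1)).sup fun i => M i n), ?_⟩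
  rintro ⟨_, a, rfl⟩
  by_cases ha : δ ≤ a
  · rcases hG a ha with ⟨n, hn⟩ | h
    · exfalso
      obtain ⟨m, hm'⟩ := hc n (⟨D.h a, a, rfl⟩ : D.M)
      exact hn m ((hmem a n m).2 hm')
    · obtain ⟨n, -, m, hmG, hmU⟩ := h 0
      exact ⟨n, hm n (hmG.trans (le_max_left _ _)) ((hmem a n m).1 hmU)⟩
  · obtain ⟨i, rfl⟩ : a ∈ Set.range en := by
      rw [← hen]; exact Or.inr (not_le.1 ha)
    refine ⟨i, hm i (le_trans ?_ (le_max_right _ _)) (hM i i)⟩
    exact Finset.le_sup (f := fun i' => M i' i) (Finset.mem_range.2 (Nat.lt_succ_self i))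

/-- The set of pairs with a gap. -/
def GapSet : Set ((ℕ → ℕ) × (ℕ → ℕ)) := {z | ∃ i, ∀ t, i ≤ t → t < z.2 i → z.1 t = 0}

theorem cont_fst (i : ℕ) : Continuous fun z : (ℕ → ℕ) × (ℕ → ℕ) => z.1 i :=
  (continuous_apply i).comp continuous_fst

theorem cont_snd (i : ℕ) : Continuous fun z : (ℕ → ℕ) × (ℕ → ℕ) => z.2 i :=
  (continuous_apply i).comp continuous_snd

theorem isOpen_gap : IsOpen GapSet := by
  have h : GapSet = ⋃ i, ⋃ k, {z : (ℕ → ℕ) × (ℕ → ℕ) | z.2 i = k} ∩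
      ⋂ t ∈ Set.Ico i k, {z | z.1 t = 0} := by
    ext z
    simp only [GapSet, Set.mem_iUnion]
    constructor
    · rintro ⟨i, hi⟩
      exact ⟨i, z.2 i, rfl, Set.mem_iInter₂.2 fun t ht => hi t ht.1 ht.2⟩
    · rintro ⟨i, k, h1, h2⟩
      refine ⟨i, fun t ht ht' => Set.mem_iInter₂.1 h2 t ⟨ht, ?_⟩⟩
      have h3 : z.2 i = k := h1
      omega
  rw [h]
  refine isOpen_iUnion fun i => isOpen_iUnion fun k => IsOpen.inter ?_ ?_
  · exact (isOpen_discrete ({k} : Set ℕ)).preimage (cont_snd i)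
  · exact (Set.finite_Ico i k).isOpen_biInter fun t _ =>
      (isOpen_discrete ({0} : Set ℕ)).preimage (cont_fst t)

/-- The set of pairs with two markers in `[n, m)`. -/
def TwoSet (n m : ℕ) : Set ((ℕ → ℕ) × (ℕ → ℕ)) :=
  {z | ∃ a b, n ≤ a ∧ a < b ∧ b < m ∧ z.1 a = 2 ∧ z.1 b = 2}

theorem isOpen_two (n m : ℕ) : IsOpen (TwoSet n m) := by
  have h : TwoSet n m = ⋃ a, ⋃ b, ⋃ (_ : n ≤ a ∧ a < b ∧ b < m),
      {z : (ℕ → ℕ) × (ℕ → ℕ) | z.1 a = 2} ∩ {z | z.1 b = 2} := by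
    ext z
    simp only [TwoSet, Set.mem_iUnion]
    constructor
    · rintro ⟨a, b, h1, h2, h3, h4, h5⟩
      exact ⟨a, b, ⟨h1, h2, h3⟩, h4, h5⟩
    · rintro ⟨a, b, ⟨h1, h2, h3⟩, h4, h5⟩
      exact ⟨a, b, h1, h2, h3, h4, h5⟩
  rw [h]
  refine isOpen_iUnion fun a => isOpen_iUnion fun b => isOpen_iUnion fun _ => IsOpen.inter ?_ ?_
  · exact (isOpen_discrete ({2} : Set ℕ)).preimage (cont_fst a)
  · exact (isOpen_discrete ({2} : Set ℕ)).preimage (cont_fst b)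

/-- **The product is not Menger.** -/
theorem Data.not_menger (D : Data I) : ¬ MSeq (D.X × D.M) := by
  classical
  intro hcon
  let ι : D.X × D.M → (ℕ → ℕ) × (ℕ → ℕ) := fun z => (z.1.1, z.2.1)
  have hι : Continuous ι :=
    (continuous_subtype_val.comp continuous_fst).prodMk
      (continuous_subtype_val.comp continuous_snd)
  obtain ⟨g₀, hg₀⟩ := hcon.frequently (fun n m => ι ⁻¹' (GapSet ∪ TwoSet n m))
    (fun n m => (isOpen_gap.union (isOpen_two n m)).preimage hι)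
    (fun n m m' hmm => Set.preimage_mono (Set.union_subset_union_right _ (by
      rintro z ⟨a, b, h1, h2, h3, h4⟩
      exact ⟨a, b, h1, h2, h3.trans_le hmm, h4⟩)))
    (by
      rintro n ⟨⟨x, hx | ⟨a, rfl⟩⟩, y⟩
      · obtain ⟨-, N, hN⟩ := hx
        exact ⟨0, Or.inl ⟨N, fun t ht _ => hN t ht⟩⟩
      · obtain ⟨i, hi, hni⟩ := (D.vinf a).exists_gt n
        obtain ⟨j, hj, hij⟩ := (D.vinf a).exists_gt i
        exact ⟨j + 1, Or.inr ⟨i, j, hni.le, hij, Nat.lt_succ_self j, D.x_two.2 hi,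
          D.x_two.2 hj⟩⟩)
  obtain ⟨g, hgm, hgid, hg₀g, δ, -, hv, -⟩ := D.scale g₀
  obtain ⟨N, hN⟩ := hv δ le_rfl
  obtain ⟨n, hn, hz⟩ := hg₀ (⟨D.x δ, Or.inr ⟨δ, rfl⟩⟩, ⟨D.h δ, δ, rfl⟩) N
  rcases hz with ⟨i, hi⟩ | ⟨a, b, h1, h2, h3, h4, h5⟩
  · obtain ⟨m, hm1, hm2, hm3⟩ := D.serve δ i
    exact D.x_ne hm1 (hi m hm2 hm3)
  · have h6 := hN a (D.x_two.1 h4) (by omega) b (D.x_two.1 h5) h2
    have h7 := hgm h1
    have h8 := hg₀g n
    omega

end Pool.Agent.Helper48.PS
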