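import Pool.Agent.Helper48.PS.Defs

/-!
# Increasing countable covers
-/

set_option autoImplicit false

namespace Pool.Agent.Helper48.PS

/-- Menger for increasing countable covers. -/
def MSeq (Z : Type*) [TopologicalSpace Z] : Prop :=
  ∀ V : ℕ → ℕ → Set Z, (∀ n m, IsOpen (V n m)) → (∀ n, Monotone (V n)) →
    (∀ n z, ∃ m, z ∈ V n m) → ∃ g : ℕ → ℕ, ∀ z, ∃ n, z ∈ V n (g n)

/-- Scheepers for increasing countable covers. -/
def SSeq (Z : Type*) [TopologicalSpace Z] : Prop :=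
  ∀ V : ℕ → ℕ → Set Z, (∀ n m, IsOpen (V n m)) → (∀ n, Monotone (V n)) →
    (∀ n z, ∃ m, z ∈ V n m) → ∃ g : ℕ → ℕ, ∀ A : Set Z, A.Finite → ∃ n, A ⊆ V n (g n)

theorem exists_index {Z : Type*} {V : ℕ → Set Z} (hV : Monotone V) {F : Set (Set Z)}
    (hF : F ⊆ Set.range V) (hfin : F.Finite) : ∃ m, ⋃₀ F ⊆ V m := by
  classical
  choose! ix hix using fun u (hu : u ∈ F) => hF hu
  obtain ⟨m, hm⟩ := (hfin.image ix).bddAbove
  refine ⟨m, Set.sUnion_subset fun u hu => ?_⟩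
  rw [← hix u hu]
  exact hV (hm (Set.mem_image_of_mem ix hu))

theorem IsMenger.mseq {Z : Type*} [TopologicalSpace Z] (h : IsMenger Z) : MSeq Z := by
  intro V ho hm hc
  obtain ⟨F, hF, hu⟩ := h (fun n => Set.range (V n)) fun n =>
    ⟨by rintro _ ⟨m, rfl⟩; exact ho n m, by
      rw [Set.eq_univ_iff_forall]
      intro z
      obtain ⟨m, hz⟩ := hc n z
      exact Set.mem_sUnion.2 ⟨V n m, ⟨m, rfl⟩, hz⟩⟩
  choose g hg using fun n => exists_index (hm n) (hF n).1 (hF n).2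
  refine ⟨g, fun z => ?_⟩
  have : z ∈ ⋃ n, ⋃₀ F n := by rw [hu]; exact Set.mem_univ z
  obtain ⟨n, hn⟩ := Set.mem_iUnion.1 this
  exact ⟨n, hg n hn⟩

theorem IsScheepers.sseq {Z : Type*} [TopologicalSpace Z] (h : IsScheepers Z) : SSeq Z := by
  intro V ho hm hc
  obtain ⟨F, hF, hu⟩ := h (fun n => Set.range (V n)) fun n =>
    ⟨by rintro _ ⟨m, rfl⟩; exact ho n m, by
      rw [Set.eq_univ_iff_forall]
      intro z
      obtain ⟨m, hz⟩ := hc n z
      exact Set.mem_sUnion.2 ⟨V n m, ⟨m, rfl⟩, hz⟩⟩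
  choose g hg using fun n => exists_index (hm n) (hF n).1 (hF n).2
  refine ⟨g, fun A hA => ?_⟩
  obtain ⟨n, hn⟩ := hu A hA
  exact ⟨n, hn.trans (hg n)⟩

/-- Countable increasing covers from open covers. -/
theorem exists_incr {Z : Type*} [TopologicalSpace Z] [SecondCountableTopology Z] [Nonempty Z]
    {U : Set (Set Z)} (ho : ∀ u ∈ U, IsOpen u) (hu : ⋃₀ U = Set.univ) :
    ∃ V : ℕ → Set Z, (∀ m, IsOpen (V m)) ∧ Monotone V ∧ (∀ z, ∃ m, z ∈ V m) ∧
      ∀ m, ∃ F : Set (Set Z), F ⊆ U ∧ F.Finite ∧ V m ⊆ ⋃₀ F := by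
  classical
  obtain ⟨T, hTc, hTU, hT⟩ := TopologicalSpace.isOpen_sUnion_countable U ho
  rw [hu] at hT
  have hne : T.Nonempty := by
    obtain ⟨z⟩ := ‹Nonempty Z›
    have : z ∈ ⋃₀ T := by rw [hT]; exact Set.mem_univ z
    obtain ⟨t, ht, -⟩ := Set.mem_sUnion.1 this
    exact ⟨t, ht⟩
  obtain ⟨t, rfl⟩ := hTc.exists_eq_range hne
  refine ⟨fun m => ⋃ i ∈ Set.Iic m, t i,
    fun m => isOpen_biUnion fun i _ => ho _ (hTU ⟨i, rfl⟩),
    fun a b hab => Set.biUnion_subset_biUnion_left (Set.Iic_subset_Iic.2 hab), fun z => ?_,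
    fun m => ⟨t '' Set.Iic m, ?_, (Set.finite_Iic m).image t, ?_⟩⟩
  · have : z ∈ ⋃₀ Set.range t := by rw [hT]; exact Set.mem_univ z
    obtain ⟨_, ⟨i, rfl⟩, hz⟩ := Set.mem_sUnion.1 this
    exact ⟨i, Set.mem_biUnion (x := i) (Set.mem_Iic.2 le_rfl) hz⟩
  · rintro _ ⟨i, -, rfl⟩
    exact hTU ⟨i, rfl⟩
  · intro z hz
    obtain ⟨i, hi, hz⟩ := Set.mem_iUnion₂.1 hz
    exact Set.mem_sUnion.2 ⟨t i, ⟨i, hi, rfl⟩, hz⟩

theorem MSeq.isMenger {Z : Type*} [TopologicalSpace Z] [SecondCountableTopology Z]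
    (h : MSeq Z) : IsMenger Z := by
  intro U hU
  rcases isEmpty_or_nonempty Z with hZ | hZ
  · exact ⟨fun _ => ∅, fun n => ⟨Set.empty_subset _, Set.finite_empty⟩,
      Set.eq_univ_of_forall fun z => (hZ.false z).elim⟩
  choose V ho hm hc hF using fun n => exists_incr (hU n).1 (hU n).2
  obtain ⟨g, hg⟩ := h V ho hm hc
  choose F hF1 hF2 hF3 using hF
  refine ⟨fun n => F n (g n), fun n => ⟨hF1 n _, hF2 n _⟩, Set.eq_univ_of_forall fun z => ?_⟩
  obtain ⟨n, hn⟩ := hg z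
  exact Set.mem_iUnion.2 ⟨n, hF3 n _ hn⟩

theorem SSeq.isScheepers {Z : Type*} [TopologicalSpace Z] [SecondCountableTopology Z]
    (h : SSeq Z) : IsScheepers Z := by
  intro U hU
  rcases isEmpty_or_nonempty Z with hZ | hZ
  · exact ⟨fun _ => ∅, fun n => ⟨Set.empty_subset _, Set.finite_empty⟩,
      fun A _ => ⟨0, fun z => (hZ.false z).elim⟩⟩
  choose V ho hm hc hF using fun n => exists_incr (hU n).1 (hU n).2
  obtain ⟨g, hg⟩ := h V ho hm hc
  choose F hF1 hF2 hF3 using hF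
  refine ⟨fun n => F n (g n), fun n => ⟨hF1 n _, hF2 n _⟩, fun A hA => ?_⟩
  obtain ⟨n, hn⟩ := hg A hA
  exact ⟨n, hn.trans (hF3 n _)⟩

/-- Each point is covered infinitely often. -/
theorem MSeq.frequently {Z : Type*} [TopologicalSpace Z] (h : MSeq Z) (V : ℕ → ℕ → Set Z)
    (ho : ∀ n m, IsOpen (V n m)) (hm : ∀ n, Monotone (V n)) (hc : ∀ n z, ∃ m, z ∈ V n m) :
    ∃ g : ℕ → ℕ, ∀ z N, ∃ n, N ≤ n ∧ z ∈ V n (g n) := by
  choose G hG using fun N => h (fun n => V (n + N)) (fun n => ho _) (fun n => hm _)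
    fun n => hc _
  refine ⟨fun n => (Finset.range (n + 1)).sup fun N => G N (n - N), fun z N => ?_⟩
  obtain ⟨n, hn⟩ := hG N z
  refine ⟨n + N, Nat.le_add_left _ _, hm _ ?_ hn⟩
  have : G N (n + N - N) ≤ (Finset.range (n + N + 1)).sup fun N' => G N' (n + N - N') :=
    Finset.le_sup (f := fun N' => G N' (n + N - N')) (Finset.mem_range.2 (by omega))
  rwa [Nat.add_sub_cancel] at this

/-- Each finite set is covered infinitely often. -/
theorem SSeq.frequently {Z : Type*} [TopologicalSpace Z] (h : SSeq Z) (V : ℕ → ℕ → Set Z)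
    (ho : ∀ n m, IsOpen (V n m)) (hm : ∀ n, Monotone (V n)) (hc : ∀ n z, ∃ m, z ∈ V n m) :
    ∃ g : ℕ → ℕ, ∀ A : Set Z, A.Finite → ∀ N, ∃ n, N ≤ n ∧ A ⊆ V n (g n) := by
  choose G hG using fun N => h (fun n => V (n + N)) (fun n => ho _) (fun n => hm _)
    fun n => hc _
  refine ⟨fun n => (Finset.range (n + 1)).sup fun N => G N (n - N), fun A hA N => ?_⟩
  obtain ⟨n, hn⟩ := hG N A hA
  refine ⟨n + N, Nat.le_add_left _ _, hn.trans (hm _ ?_)⟩
  have : G N (n + N - N) ≤ (Finset.range (n + N + 1)).sup fun N' => G N' (n + N - N') :=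
    Finset.le_sup (f := fun N' => G N' (n + N - N')) (Finset.mem_range.2 (by omega))
  rwa [Nat.add_sub_cancel] at this

/-- Invariance under homeomorphisms. -/
theorem MSeq.homeo {Z Z' : Type*} [TopologicalSpace Z] [TopologicalSpace Z'] (h : MSeq Z)
    (e : Z ≃ₜ Z') : MSeq Z' := by
  intro V ho hm hc
  obtain ⟨g, hg⟩ := h (fun n m => e ⁻¹' V n m) (fun n m => (ho n m).preimage e.continuous)
    (fun n a b hab => Set.preimage_mono (hm n hab)) fun n z => hc n (e z)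
  refine ⟨g, fun z => ?_⟩
  obtain ⟨n, hn⟩ := hg (e.symm z)
  exact ⟨n, by simpa using hn⟩

theorem SSeq.homeo {Z Z' : Type*} [TopologicalSpace Z] [TopologicalSpace Z'] (h : SSeq Z)
    (e : Z ≃ₜ Z') : SSeq Z' := by
  intro V ho hm hc
  obtain ⟨g, hg⟩ := h (fun n m => e ⁻¹' V n m) (fun n m => (ho n m).preimage e.continuous)
    (fun n a b hab => Set.preimage_mono (hm n hab)) fun n z => hc n (e z)
  refine ⟨g, fun A hA => ?_⟩
  obtain ⟨n, hn⟩ := hg (e.symm '' A) (hA.image _)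
  refine ⟨n, fun z hz => ?_⟩
  have := hn (Set.mem_image_of_mem _ hz)
  simpa using this

end Pool.Agent.Helper48.PS
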