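import Pool.Agent.Helper48.PS.Data
import Pool.Agent.Helper48.PS.Seq

/-!
# The first set is productively Scheepers
-/

set_option autoImplicit false

namespace Pool.Agent.Helper48.PS

open Topology

variable {I : Type} [LinearOrder I]

/-- The point `x a` : 0 outside of `w a`, 2 on the markers, 1 on the other points of `w a`. -/
noncomputable def Data.x (D : Data I) (a : I) : ℕ → ℕ := by
  classical
  exact fun i => if i ∈ D.v a then 2 else if i ∈ D.w a then 1 else 0

theorem Data.x_zero (D : Data I) {a : I} {i : ℕ} (h : i ∉ D.w a) : D.x a i = 0 := by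
  classical
  unfold Data.x
  rw [if_neg fun hv => h (D.vw a hv), if_neg h]

theorem Data.x_le (D : Data I) (a : I) (i : ℕ) : D.x a i ≤ 2 := by
  classical
  unfold Data.x
  split_ifs <;> omega

theorem Data.x_ne (D : Data I) {a : I} {i : ℕ} (h : i ∈ D.w a) : D.x a i ≠ 0 := by
  classical
  unfold Data.x
  split_ifs <;> omega

theorem Data.x_two (D : Data I) {a : I} {i : ℕ} : D.x a i = 2 ↔ i ∈ D.v a := by
  classical
  unfold Data.x
  split_ifs with h1 h2 <;> simp [h1]

/-- Eventually zero sequences with values at most 2. -/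
def Fin2 : Set (ℕ → ℕ) := {s | (∀ i, s i ≤ 2) ∧ ∃ N, ∀ i, N ≤ i → s i = 0}

theorem Fin2_countable : Fin2.Countable := by
  have h : Fin2 ⊆ Set.range fun l : List ℕ => fun i => l.getD i 0 := by
    rintro s ⟨-, N, hN⟩
    refine ⟨(List.range N).map s, ?_⟩
    funext i
    by_cases hi : i < N
    · simp [List.getD, hi]
    · simp [List.getD, hi, hN i (by omega)]
  exact (Set.countable_range _).mono h

theorem finite_supp (k : ℕ) : {s : ℕ → ℕ | (∀ i, s i ≤ 2) ∧ ∀ i, k ≤ i → s i = 0}.Finite := by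
  refine (Set.finite_range fun (g : Fin k → Fin 3) (i : ℕ) =>
    if h : i < k then (g ⟨i, h⟩ : ℕ) else 0).subset ?_
  rintro s ⟨h1, h2⟩
  refine ⟨fun i => ⟨s i, by have := h1 i; omega⟩, ?_⟩
  funext i
  by_cases hi : i < k
  · simp [hi]
  · simp [hi, h2 i (by omega)]

/-- The first set. -/
def Data.X (D : Data I) : Set (ℕ → ℕ) := Fin2 ∪ Set.range D.x

theorem fin2_mem (D : Data I) {s : ℕ → ℕ} (h1 : ∀ i, s i ≤ 2) {k : ℕ}
    (h2 : ∀ i, k ≤ i → s i = 0) : s ∈ D.X := Or.inl ⟨h1, k, h2⟩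

/-- Every sequence is bounded in `I`. -/
theorem Data.exists_gt_seq (D : Data I) (c : ℕ → I) : ∃ b : I, ∀ n, c n < b := by
  by_contra hcon
  push Not at hcon
  have h1 : (Set.univ : Set I) ⊆ ⋃ n, insert (c n) (Set.Iio (c n)) := by
    intro b _
    obtain ⟨n, hn⟩ := hcon b
    refine Set.mem_iUnion.2 ⟨n, ?_⟩
    rcases hn.lt_or_eq with h | h
    · exact Or.inr h
    · exact Or.inl h
  have h2 : (Set.univ : Set I).Countable :=
    (Set.countable_iUnion fun n => (D.cnt (c n)).insert _).mono h1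
  exact D.unc (Set.countable_univ_iff.1 h2)

theorem Data.exists_gt (D : Data I) (a : I) : ∃ b : I, a < b := by
  obtain ⟨b, hb⟩ := D.exists_gt_seq fun _ => a
  exact ⟨b, hb 0⟩

theorem Data.exists_gt_finset (D : Data I) (s : Finset I) (a : I) :
    ∃ b : I, a < b ∧ ∀ c ∈ s, c < b := by
  classical
  induction s using Finset.induction_on with
  | empty =>
    obtain ⟨b, hb⟩ := D.exists_gt a
    exact ⟨b, hb, by simp⟩
  | insert c s _ ih =>
    obtain ⟨b, hb, hs⟩ := ih
    obtain ⟨d, hd⟩ := D.exists_gt (max b c)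
    refine ⟨d, hb.trans ((le_max_left _ _).trans_lt hd), fun e he => ?_⟩
    rcases Finset.mem_insert.1 he with rfl | he
    · exact (le_max_right _ _).trans_lt hd
    · exact (hs e he).trans ((le_max_left _ _).trans_lt hd)

/-- The pressing down argument for finite sets. -/
theorem Data.exists_gap (D : Data I) (s : I → Finset I) :
    ∃ δ : I, ∀ ε : I, ∃ c, ε ≤ c ∧ ∀ a ∈ s c, δ ≤ a → ε ≤ a := by
  by_contra hcon
  push Not at hcon
  choose ε hε using hcon
  have hne : Nonempty I := by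
    by_contra h
    rw [not_nonempty_iff] at h
    exact D.unc inferInstance
  obtain ⟨i₀⟩ := hne
  let d : ℕ → I := fun n => Nat.rec i₀ (fun _ x => ε x) n
  have hd : ∀ n, d (n + 1) = ε (d n) := fun n => rfl
  obtain ⟨c, hc⟩ := D.exists_gt_seq d
  have key : ∀ n, ∃ a ∈ s c, d n ≤ a ∧ a < d (n + 1) := by
    intro n
    obtain ⟨a, h1, h2, h3⟩ := hε (d n) c (by rw [← hd]; exact (hc (n + 1)).le)
    exact ⟨a, h1, h2, by rw [hd]; exact h3⟩
  choose a ha1 ha2 ha3 using key
  have hmono : StrictMono a := strictMono_nat_of_lt_succ fun n => (ha3 n).trans_le (ha2 (n + 1))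
  have hinf : (Set.range a).Infinite := Set.infinite_range_of_injective hmono.injective
  exact hinf ((s c).finite_toSet.subset (by rintro _ ⟨n, rfl⟩; exact ha1 n))

/-- Local condition. -/
def Loc {Y : Type*} (X : Set (ℕ → ℕ)) (V : ℕ → ℕ → Set (X × Y)) (s : ℕ → ℕ) (n j : ℕ)
    (y : Y) : Prop := ∀ x : X, (∀ i < j, x.1 i = s i) → (x, y) ∈ V n j

/-- **The set `X` is productively Scheepers.** -/
theorem Data.prod_scheepers (D : Data I) {Y : Type*} [TopologicalSpace Y] (hY : SSeq Y) :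
    SSeq (D.X × Y) := by
  classical
  intro V ho hm hc
  by_contra hcon
  push Not at hcon
  -- finite sets which are not covered along the scale
  have hbad : ∀ c : I, ∃ A : Set (D.X × Y), A.Finite ∧ ∀ n, ¬ A ⊆ V n (D.s c n) :=
    fun c => hcon (D.s c)
  choose A hAf hA using hbad
  -- indices
  have hix : ∀ x : D.X, ∃ a : I, x.1 ∈ Fin2 ∨ x.1 = D.x a := by
    rintro ⟨x, hx | ⟨a, rfl⟩⟩
    · have hne : Nonempty I := by
        by_contra h
        rw [not_nonempty_iff] at h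
        exact D.unc inferInstance
      exact ⟨hne.some, Or.inl hx⟩
    · exact ⟨a, Or.inr rfl⟩
  choose ix hix using hix
  let s : I → Finset I := fun c => (hAf c).toFinset.image fun z => ix z.1
  obtain ⟨δ, hδ⟩ := D.exists_gap s
  -- the countable part
  let Q : Set D.X := {x | x.1 ∈ Fin2} ∪ {x | ix x < δ ∧ x.1 = D.x (ix x)}
  have hQc : Q.Countable := by
    refine Set.Countable.union ?_ ?_
    · exact Fin2_countable.preimage Subtype.val_injective
    · have h1 : {x : D.X | ix x < δ ∧ x.1 = D.x (ix x)} ⊆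
          Subtype.val ⁻¹' (D.x '' Set.Iio δ) := by
        rintro x ⟨h1, h2⟩
        exact ⟨ix x, h1, h2.symm⟩
      exact (((D.cnt δ).image D.x).preimage Subtype.val_injective).mono h1
  have hQne : Q.Nonempty :=
    ⟨⟨fun _ => 0, fin2_mem D (k := 0) (fun _ => Nat.zero_le _) fun _ _ => rfl⟩,
      Or.inl ⟨fun _ => Nat.zero_le _, 0, fun _ _ => rfl⟩⟩
  obtain ⟨q, hq⟩ := hQc.exists_eq_range hQne
  -- the covers of `Y`
  let S : ℕ → Set (ℕ → ℕ) := fun k => {s | (∀ i, s i ≤ 2) ∧ ∀ i, k ≤ i → s i = 0}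
  let W : ℕ → ℕ → Set Y := fun k j =>
    (⋂ s ∈ S k, ⋂ n ∈ Set.Iic k, {y | ∀ᶠ y' in 𝓝 y, Loc D.X V s n j y'}) ∩
      ⋂ i ∈ Set.Iic k, ⋂ n ∈ Set.Iic k, {y | (q i, y) ∈ V n j}
  have hWo : ∀ k j, IsOpen (W k j) := by
    intro k j
    refine IsOpen.inter ?_ ?_
    · exact (finite_supp k).isOpen_biInter fun s _ =>
        (Set.finite_Iic k).isOpen_biInter fun n _ => isOpen_setOfPred_eventually_nhds
    · exact (Set.finite_Iic k).isOpen_biInter fun i _ =>
        (Set.finite_Iic k).isOpen_biInter fun n _ =>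
          (ho n j).preimage (Continuous.prodMk_right (q i))
  have hLm : ∀ s n j j', j ≤ j' → ∀ y, Loc D.X V s n j y → Loc D.X V s n j' y :=
    fun s n j j' hj y h x hx => hm n hj (h x fun i hi => hx i (by omega))
  have hWm : ∀ k, Monotone (W k) := by
    intro k j j' hj y hy
    refine ⟨?_, ?_⟩
    · simp only [Set.mem_iInter] at hy ⊢
      intro s hs n hn
      have h1 := Set.mem_iInter₂.1 (Set.mem_iInter₂.1 hy.1 s hs) n hn
      exact Filter.Eventually.mono h1 fun y' hy' => hLm s n j j' hj y' hy'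
    · simp only [Set.mem_iInter] at hy ⊢
      intro i hi n hn
      exact hm n hj (Set.mem_iInter₂.1 (Set.mem_iInter₂.1 hy.2 i hi) n hn)
  have hWc : ∀ k y, ∃ j, y ∈ W k j := by
    intro k y
    have h1 : ∀ᶠ j in Filter.atTop, ∀ s ∈ S k, ∀ n ∈ Set.Iic k,
        ∀ᶠ y' in 𝓝 y, Loc D.X V s n j y' := by
      refine (finite_supp k).eventually_all.2 fun s hs =>
        (Set.finite_Iic k).eventually_all.2 fun n _ => ?_
      let s' : D.X := ⟨s, fin2_mem D hs.1 hs.2⟩
      obtain ⟨m, hm'⟩ := hc n (s', y)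
      obtain ⟨P, hP, R, hR, hPR⟩ := mem_nhds_prod_iff.1 ((ho n m).mem_nhds hm')
      obtain ⟨P', hP', hPP⟩ := mem_nhds_subtype _ _ _ |>.1 hP
      obtain ⟨T, ⟨x, j₀, rfl⟩, hT1, hT2⟩ :=
        (PiNat.isTopologicalBasis_cylinders (fun _ : ℕ => ℕ)).mem_nhds_iff.1 hP'
      refine Filter.eventually_atTop.2 ⟨max m j₀, fun j hj => ?_⟩
      refine Filter.eventually_of_mem hR fun y' hy' x' hx' => ?_
      refine hm n ((le_max_left m j₀).trans hj) (hPR (Set.mk_mem_prod (hPP (hT2 ?_)) hy'))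
      rw [PiNat.mem_cylinder_iff] at hT1 ⊢
      intro i hi
      rw [← hT1 i hi]
      exact hx' i (hi.trans_le ((le_max_right m j₀).trans hj))
    have h2 : ∀ᶠ j in Filter.atTop, ∀ i ∈ Set.Iic k, ∀ n ∈ Set.Iic k, (q i, y) ∈ V n j := by
      refine (Set.finite_Iic k).eventually_all.2 fun i _ =>
        (Set.finite_Iic k).eventually_all.2 fun n _ => ?_
      obtain ⟨m, hm'⟩ := hc n (q i, y)
      exact Filter.eventually_atTop.2 ⟨m, fun j hj => hm n hj hm'⟩
    obtain ⟨j, hj1, hj2⟩ := (h1.and h2).exists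
    exact ⟨j, Set.mem_iInter₂.2 fun s hs => Set.mem_iInter₂.2 fun n hn => hj1 s hs n hn,
      Set.mem_iInter₂.2 fun i hi => Set.mem_iInter₂.2 fun n hn => hj2 i hi n hn⟩
  obtain ⟨g₀, hg₀⟩ := hY.frequently W hWo hWm hWc
  obtain ⟨g, hgm, hgid, hg₀g, δ', hfar, -, hdom⟩ := D.scale g₀
  -- the two indices
  obtain ⟨c, hc1, hc2⟩ := hδ (max δ δ')
  obtain ⟨ε, hε1, hε2⟩ := D.exists_gt_finset (s c) (max δ δ')
  obtain ⟨c', hc1', hc2'⟩ := hδ ε
  have hmem : ∀ c, ∀ z ∈ A c, ix z.1 ∈ s c := fun c z hz =>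
    Finset.mem_image.2 ⟨z, (hAf c).mem_toFinset.2 hz, rfl⟩
  -- one side is not hit
  have key : ∀ c, (∃ N, ∀ n, N ≤ n → g n ≤ D.s c n) → ∃ N, ∀ k, N ≤ k →
      (∀ z ∈ A c, z.2 ∈ W k (g k)) →
      ∃ a ∈ s c, δ ≤ a ∧ ∃ e ∈ D.w a, k ≤ e ∧ e < g k := by
    rintro c ⟨N₁, hN₁⟩
    have h1 : ∀ᶠ k in Filter.atTop, ∀ z ∈ A c, z.1 ∈ Q → ∃ i ∈ Set.Iic k, q i = z.1 := by
      refine (hAf c).eventually_all.2 fun z _ => ?_
      by_cases hz : z.1 ∈ Q
      · obtain ⟨i, hi⟩ : z.1 ∈ Set.range q := by rw [← hq]; exact hz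
        exact Filter.eventually_atTop.2 ⟨i, fun k hk _ => ⟨i, hk, hi⟩⟩
      · exact Filter.Eventually.of_forall fun k h => absurd h hz
    obtain ⟨N₂, hN₂⟩ := Filter.eventually_atTop.1 h1
    refine ⟨max N₁ N₂, fun k hk hW => ?_⟩
    by_contra hno
    push Not at hno
    refine hA c k (Set.Subset.trans (fun z hz => ?_) (hm k (hN₁ k (by omega))))
    have hzW := hW z hz
    by_cases hzQ : z.1 ∈ Q
    · obtain ⟨i, hi, hqi⟩ := hN₂ k (by omega) z hz hzQ
      have h2 := Set.mem_iInter₂.1 (Set.mem_iInter₂.1 hzW.2 i hi) k (Set.mem_Iic.2 le_rfl)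
      simp only [Set.mem_ofPred_eq, hqi] at h2
      exact h2
    · have h2 : z.1.1 = D.x (ix z.1) := by
        rcases hix z.1 with h | h
        · exact absurd (Or.inl h) hzQ
        · exact h
      have h3 : δ ≤ ix z.1 := by
        by_contra h
        exact hzQ (Or.inr ⟨not_le.1 h, h2⟩)
      have h4 := hno (ix z.1) (hmem c z hz) h3
      let t : ℕ → ℕ := fun i => if i < k then z.1.1 i else 0
      have ht : t ∈ S k := by
        refine ⟨fun i => ?_, fun i hi => if_neg (by omega)⟩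
        by_cases h : i < k
        · simp only [t, if_pos h, h2]
          exact D.x_le _ _
        · simp only [t, if_neg h]
          exact Nat.zero_le _
      have h5 : ∀ᶠ y' in 𝓝 z.2, Loc D.X V t k (g k) y' :=
        Set.mem_iInter₂.1 (Set.mem_iInter₂.1 hzW.1 t ht) k (Set.mem_Iic.2 le_rfl)
      refine h5.self_of_nhds z.1 fun i hi => ?_
      by_cases h : i < k
      · simp only [t, if_pos h]
      · simp only [t, if_neg h, h2]
        exact D.x_zero fun hw => absurd hi (not_lt.2 (h4 i hw (by omega)))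
  obtain ⟨N₁, hN₁⟩ := key c (hdom c ((le_max_right _ _).trans hc1))
  obtain ⟨N₂, hN₂⟩ := key c' (hdom c' ((le_max_right δ δ').trans (hε1.le.trans hc1')))
  -- far pairs
  have h1 : ∀ᶠ k in Filter.atTop, ∀ a ∈ s c, ∀ a' ∈ s c', δ ≤ a → δ ≤ a' →
      ∀ m ∈ D.w a', k ≤ m → Far g (D.w a) m := by
    refine (s c).finite_toSet.eventually_all.2 fun a ha =>
      (s c').finite_toSet.eventually_all.2 fun a' ha' => ?_
    by_cases h : δ ≤ a ∧ δ ≤ a'
    · have h2 : max δ δ' ≤ a := hc2 a ha h.1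
      have h3 : ε ≤ a' := hc2' a' ha' h.2
      have h4 : a < a' := (hε2 a ha).trans_le h3
      obtain ⟨N, hN⟩ := hfar a ((le_max_right _ _).trans h2) a' h4
      exact Filter.eventually_atTop.2 ⟨N, fun k hk _ _ m hm' hkm => hN m hm' (hk.trans hkm)⟩
    · exact Filter.Eventually.of_forall fun k h5 h6 => absurd ⟨h5, h6⟩ h
  obtain ⟨N₃, hN₃⟩ := Filter.eventually_atTop.1 h1
  obtain ⟨k, hk, hkW⟩ := hg₀ (Prod.snd '' (A c ∪ A c')) (((hAf c).union (hAf c')).image _)
    (max (max N₁ N₂) N₃)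
  have hkW' : ∀ z ∈ A c ∪ A c', z.2 ∈ W k (g k) := fun z hz =>
    hWm k (hg₀g k) (hkW (Set.mem_image_of_mem _ hz))
  obtain ⟨a, ha, hδa, e, he, hke, heg⟩ := hN₁ k (by omega) fun z hz => hkW' z (Or.inl hz)
  obtain ⟨a', ha', hδa', e', he', hke', heg'⟩ :=
    hN₂ k (by omega) fun z hz => hkW' z (Or.inr hz)
  have h2 : g (min e e') ≤ max e e' :=
    hN₃ k (by omega) a ha a' ha' hδa hδa' e' he' hke' e he
  have h3 : g k ≤ g (min e e') := hgm (le_min hke hke')
  have h4 : max e e' < g k := max_lt heg heg'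
  omega

end Pool.Agent.Helper48.PS
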