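import Mathlib

/-!
# One stage of the construction: a generic triple of two sets and a function

Finite conditions and countably many dense requirements.
-/

set_option autoImplicit false

namespace Pool.Agent.Helper48.PS

/-- An `R`-legal content on `[n, j)`: the function `h'` extends `h`, and every point `i` of
`[n, j)` is served by a point of `u` in `[i, h' i)`; all points of `u` satisfy `R`. -/
def Legal (R : ℕ → Prop) (n : ℕ) (h : ℕ → ℕ) (j : ℕ) (h' : ℕ → ℕ) (u : Finset ℕ) : Prop :=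
  n < j ∧ (∀ i < n, h' i = h i) ∧ (∀ m ∈ u, n ≤ m ∧ m < j ∧ R m) ∧
    ∀ i, n ≤ i → i < j → ∃ m ∈ u, i ≤ m ∧ m < h' i ∧ h' i ≤ j

/-- The values of `h` below `j` force membership in `V m`. -/
def Dec (V : ℕ → Set (ℕ → ℕ)) (j m : ℕ) (h : ℕ → ℕ) : Prop :=
  ∀ z : ℕ → ℕ, (∀ i < j, z i = h i) → z ∈ V m

theorem Legal.mono {R R' : ℕ → Prop} {n j : ℕ} {h h' : ℕ → ℕ} {u : Finset ℕ}
    (hL : Legal R n h j h' u) (hR : ∀ m, R m → R' m) : Legal R' n h j h' u :=
  ⟨hL.1, hL.2.1, fun m hm => ⟨(hL.2.2.1 m hm).1, (hL.2.2.1 m hm).2.1, hR m (hL.2.2.1 m hm).2.2⟩,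
    hL.2.2.2⟩

theorem Legal.congr {R : ℕ → Prop} {n j : ℕ} {h₁ h₂ h' : ℕ → ℕ} {u : Finset ℕ}
    (hL : Legal R n h₁ j h' u) (hh : ∀ i < n, h₁ i = h₂ i) : Legal R n h₂ j h' u :=
  ⟨hL.1, fun i hi => (hL.2.1 i hi).trans (hh i hi), hL.2.2⟩

theorem Dec.congr {V : ℕ → Set (ℕ → ℕ)} {j m : ℕ} {h₁ h₂ : ℕ → ℕ} (hD : Dec V j m h₁)
    (hh : ∀ i < j, h₁ i = h₂ i) : Dec V j m h₂ :=
  fun z hz => hD z fun i hi => (hz i hi).trans (hh i hi).symm

/-- Conditions. -/
structure Cond (A B : Type*) where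
  /-- length -/
  k : ℕ
  /-- the function below `k` -/
  h : ℕ → ℕ
  /-- the points below `k` -/
  w : Finset ℕ
  /-- the markers below `k` -/
  v : Finset ℕ
  /-- promises for points -/
  p : Finset A
  /-- promises for markers -/
  q : Finset B

variable {A B C : Type*}

/-- Valid conditions. -/
def Cond.Valid (c : Cond A B) : Prop :=
  (∀ m ∈ c.w, m < c.k) ∧ c.v ⊆ c.w ∧ ∀ i < c.k, ∃ m ∈ c.w, i ≤ m ∧ m < c.h i ∧ c.h i ≤ c.k

/-- `d` extends `c`. -/
def Ext (far : A → ℕ → Prop) (fn : B → ℕ → ℕ) (c d : Cond A B) : Prop :=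
  c.k ≤ d.k ∧ (∀ i < c.k, d.h i = c.h i) ∧ c.w ⊆ d.w ∧
    (∀ m ∈ d.w, m ∉ c.w → c.k ≤ m ∧ ∀ a ∈ c.p, far a m) ∧ c.v ⊆ d.v ∧
    (∀ m ∈ d.v, m ∉ c.v → c.k ≤ m ∧ ∀ b ∈ c.q, ∀ m₀ ∈ d.v, m₀ < m → fn b m₀ ≤ m) ∧
    c.p ⊆ d.p ∧ c.q ⊆ d.q

theorem Ext.refl (far : A → ℕ → Prop) (fn : B → ℕ → ℕ) (c : Cond A B) : Ext far fn c c :=
  ⟨le_rfl, fun _ _ => rfl, Finset.Subset.refl _, fun _ hm hm' => absurd hm hm',
    Finset.Subset.refl _, fun _ hm hm' => absurd hm hm', Finset.Subset.refl _,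
    Finset.Subset.refl _⟩

theorem Ext.trans {far : A → ℕ → Prop} {fn : B → ℕ → ℕ} {c d e : Cond A B} (hd : d.Valid)
    (h₁ : Ext far fn c d) (h₂ : Ext far fn d e) : Ext far fn c e := by
  obtain ⟨a1, a2, a3, a4, a5, a6, a7, a8⟩ := h₁
  obtain ⟨b1, b2, b3, b4, b5, b6, b7, b8⟩ := h₂
  refine ⟨a1.trans b1, fun i hi => (b2 i (lt_of_lt_of_le hi a1)).trans (a2 i hi), a3.trans b3,
    fun m hm hm' => ?_, a5.trans b5, fun m hm hm' => ?_, a7.trans b7, a8.trans b8⟩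
  · by_cases h : m ∈ d.w
    · exact a4 m h hm'
    · exact ⟨a1.trans (b4 m hm h).1, fun a ha => (b4 m hm h).2 a (a7 ha)⟩
  · by_cases h : m ∈ d.v
    · refine ⟨(a6 m h hm').1, fun b hb m₀ hm₀ hlt => ?_⟩
      by_cases h0 : m₀ ∈ d.v
      · exact (a6 m h hm').2 b hb m₀ h0 hlt
      · have h1 := (b6 m₀ hm₀ h0).1
        have h2 := hd.1 m (hd.2.1 h)
        omega
    · exact ⟨a1.trans (b6 m hm h).1, fun b hb => (b6 m hm h).2 b (a8 hb)⟩

/-- Rasiowa–Sikorski for a relation. -/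
theorem exists_seq {P : Type*} (V : P → Prop) (E : P → P → Prop) {T : Type*} [Countable T]
    (D : T → P → Prop) (p₀ : P) (h₀ : V p₀) (hE : ∀ p, V p → E p p)
    (hD : ∀ t p, V p → ∃ p', V p' ∧ E p p' ∧ D t p') :
    ∃ s : ℕ → P, (∀ i, V (s i)) ∧ (∀ i, E (s i) (s (i + 1))) ∧ ∀ t, ∃ i, D t (s i) := by
  classical
  rcases isEmpty_or_nonempty T with hT | hT
  · exact ⟨fun _ => p₀, fun _ => h₀, fun _ => hE _ h₀, fun t => (hT.false t).elim⟩
  obtain ⟨en, hen⟩ := exists_surjective_nat T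
  choose! nx hV hX hDD using hD
  let s : ℕ → P := fun n => Nat.rec p₀ (fun i p => nx (en i) p) n
  have hs : ∀ i, s (i + 1) = nx (en i) (s i) := fun i => rfl
  have hVs : ∀ i, V (s i) := by
    intro i
    induction i with
    | zero => exact h₀
    | succ i ih => rw [hs]; exact hV _ _ ih
  refine ⟨s, hVs, fun i => ?_, fun t => ?_⟩
  · rw [hs]; exact hX _ _ (hVs i)
  · obtain ⟨i, rfl⟩ := hen t
    exact ⟨i + 1, by rw [hs]; exact hDD _ _ (hVs i)⟩

/-- The basic step: add a point `e`. -/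
def Cond.add [DecidableEq A] (c : Cond A B) (e : ℕ) (mark : Bool) : Cond A B where
  k := e + 1
  h := fun i => if i < c.k then c.h i else e + 1
  w := insert e c.w
  v := if mark then insert e c.v else c.v
  p := c.p
  q := c.q

theorem Cond.add_valid [DecidableEq A] {c : Cond A B} (hc : c.Valid) {e : ℕ} (he : c.k ≤ e)
    (mark : Bool) : (c.add e mark).Valid := by
  refine ⟨fun m hm => ?_, ?_, fun i hi => ?_⟩
  · simp only [Cond.add, Finset.mem_insert] at hm ⊢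
    rcases hm with rfl | hm
    · omega
    · have := hc.1 m hm
      omega
  · cases mark
    · exact hc.2.1.trans (Finset.subset_insert _ _)
    · exact Finset.insert_subset_insert _ hc.2.1
  · simp only [Cond.add] at hi ⊢
    by_cases h : i < c.k
    · obtain ⟨m, hm, h1, h2, h3⟩ := hc.2.2 i h
      exact ⟨m, Finset.mem_insert_of_mem hm, h1, by rw [if_pos h]; exact h2,
        by rw [if_pos h]; omega⟩
    · exact ⟨e, Finset.mem_insert_self _ _, by omega, by rw [if_neg h]; omega,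
        by rw [if_neg h]⟩

theorem Cond.add_ext [DecidableEq A] {far : A → ℕ → Prop} {fn : B → ℕ → ℕ} {c : Cond A B}
    {e : ℕ} (he : c.k ≤ e) (hp : ∀ a ∈ c.p, far a e) {mark : Bool}
    (hm : mark = true → ∀ b ∈ c.q, ∀ m₀ ∈ c.v, fn b m₀ ≤ e) :
    Ext far fn c (c.add e mark) := by
  refine ⟨by simp only [Cond.add]; omega, fun i hi => by simp only [Cond.add]; rw [if_pos hi],
    Finset.subset_insert _ _, fun m h1 h2 => ?_, ?_, fun m h1 h2 => ?_,
    Finset.Subset.refl _, Finset.Subset.refl _⟩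
  · simp only [Cond.add, Finset.mem_insert] at h1
    rcases h1 with rfl | h1
    · exact ⟨he, hp⟩
    · exact absurd h1 h2
  · cases mark
    · exact Finset.Subset.refl _
    · exact Finset.subset_insert _ _
  · cases mark
    · exact absurd h1 h2
    · simp only [Cond.add, if_true, Finset.mem_insert] at h1 ⊢
      rcases h1 with rfl | h1
      · refine ⟨he, fun b hb m₀ hm₀ hlt => ?_⟩
        rcases hm₀ with rfl | hm₀
        · omega
        · exact hm rfl b hb m₀ hm₀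
      · exact absurd h1 h2

end Pool.Agent.Helper48.PS
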