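import Pool.Agent.Helper48.PS.Stage

/-!
# The stage lemma
-/

set_option autoImplicit false

namespace Pool.Agent.Helper48.PS

/-- `e` is `f`-far from all points of `w`. -/
def Far (f : ℕ → ℕ) (w : Set ℕ) (e : ℕ) : Prop := ∀ m ∈ w, f (min m e) ≤ max m e

variable {A B C : Type*}

theorem exists_far {far : A → ℕ → Prop} (IH : ∀ p : Finset A, {e | ∀ a ∈ p, far a e}.Infinite)
    (p : Finset A) (N : ℕ) : ∃ e, N ≤ e ∧ ∀ a ∈ p, far a e := by
  obtain ⟨e, he, hN⟩ := (IH p).exists_gt N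
  exact ⟨e, hN.le, he⟩

/-- Density: promises for points. -/
theorem dense_p [DecidableEq A] (far : A → ℕ → Prop) (fn : B → ℕ → ℕ) (a : A) (c : Cond A B)
    (hc : c.Valid) : ∃ d : Cond A B, d.Valid ∧ Ext far fn c d ∧ a ∈ d.p :=
  ⟨{ c with p := insert a c.p }, hc,
    ⟨le_rfl, fun _ _ => rfl, Finset.Subset.refl _, fun _ hm hm' => absurd hm hm',
      Finset.Subset.refl _, fun _ hm hm' => absurd hm hm', Finset.subset_insert _ _,
      Finset.Subset.refl _⟩, Finset.mem_insert_self _ _⟩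

/-- Density: promises for markers. -/
theorem dense_q [DecidableEq B] (far : A → ℕ → Prop) (fn : B → ℕ → ℕ) (b : B) (c : Cond A B)
    (hc : c.Valid) : ∃ d : Cond A B, d.Valid ∧ Ext far fn c d ∧ b ∈ d.q :=
  ⟨{ c with q := insert b c.q }, hc,
    ⟨le_rfl, fun _ _ => rfl, Finset.Subset.refl _, fun _ hm hm' => absurd hm hm',
      Finset.Subset.refl _, fun _ hm hm' => absurd hm hm', Finset.Subset.refl _,
      Finset.subset_insert _ _⟩, Finset.mem_insert_self _ _⟩

/-- Density: long conditions with large markers. -/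
theorem dense_v [DecidableEq A] (far : A → ℕ → Prop) (fn : B → ℕ → ℕ)
    (IH : ∀ p : Finset A, {e | ∀ a ∈ p, far a e}.Infinite) (N : ℕ) (c : Cond A B)
    (hc : c.Valid) :
    ∃ d : Cond A B, d.Valid ∧ Ext far fn c d ∧ N ≤ d.k ∧ ∃ m ∈ d.v, N ≤ m := by
  obtain ⟨e, he, hp⟩ := exists_far IH c.p
    (max (max N c.k) (c.q.sup fun b => c.v.sup fun m => fn b m))
  refine ⟨c.add e true, Cond.add_valid hc (by omega) true,
    Cond.add_ext (by omega) hp fun _ b hb m₀ hm₀ => ?_, ?_, e, ?_, by omega⟩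
  · have h1 : fn b m₀ ≤ c.v.sup fun m => fn b m :=
      Finset.le_sup (f := fun m => fn b m) hm₀
    have h2 : (c.v.sup fun m => fn b m) ≤ c.q.sup fun b => c.v.sup fun m => fn b m :=
      Finset.le_sup (f := fun b => c.v.sup fun m => fn b m) hb
    omega
  · simp only [Cond.add]; omega
  · simp [Cond.add]

/-- Density: common gaps. -/
theorem dense_gap [DecidableEq A] (far : A → ℕ → Prop) (fn : B → ℕ → ℕ)
    (hmono : ∀ b, Monotone (fn b)) (hid : ∀ b k, k < fn b k)
    (IH : ∀ p : Finset A, {e | ∀ a ∈ p, far a e}.Infinite) (p₀ : Finset A) (b : B) (N : ℕ)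
    (c : Cond A B) (hc : c.Valid) :
    ∃ d : Cond A B, d.Valid ∧ Ext far fn c d ∧ ∃ e, N ≤ e ∧ (∀ a ∈ p₀, far a e) ∧
      (∀ m ∈ d.w, fn b (min m e) ≤ max m e) ∧ fn b e ≤ d.k := by
  obtain ⟨e, he, hp⟩ := exists_far IH p₀ (max N (fn b c.k))
  have hbk := hid b c.k
  obtain ⟨e', he', hp'⟩ := exists_far IH c.p (fn b e)
  have hbe := hid b e
  refine ⟨c.add e' false, Cond.add_valid hc (by omega) false,
    Cond.add_ext (by omega) hp' (by simp), e, by omega, hp, fun m hm => ?_, ?_⟩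
  · simp only [Cond.add, Finset.mem_insert] at hm
    rcases hm with rfl | hm
    · rw [min_eq_right (by omega), max_eq_left (by omega)]
      exact he'
    · have h1 := hc.1 m hm
      rw [min_eq_left (by omega), max_eq_right (by omega)]
      have h2 := hmono b h1.le
      omega
  · simp only [Cond.add]; omega

/-- Density: the Menger requirement. -/
theorem dense_menger [DecidableEq A] (far : A → ℕ → Prop) (fn : B → ℕ → ℕ)
    (IH : ∀ p : Finset A, {e | ∀ a ∈ p, far a e}.Infinite)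
    (U : ℕ → ℕ → Set (ℕ → ℕ)) (G : ℕ → ℕ) (low : Set A)
    (MG : ∀ p : Finset A, (∀ a ∈ p, a ∈ low) → ∃ N, ∀ n, N ≤ n → ∀ h : ℕ → ℕ,
      (∀ i < n, h i ≤ n) →
      (∃ j h' u m, Legal (fun e => ∀ a ∈ p, far a e) n h j h' u ∧ Dec (U n) j m h') →
      ∃ j h' u m, Legal (fun e => ∀ a ∈ p, far a e) n h j h' u ∧ Dec (U n) j m h' ∧
        j ≤ G n ∧ m ≤ G n)
    (SH : ∀ a, a ∉ low → ∃ a', ∀ e, far a' e → ∀ z, e ≤ z → z ≤ G (e + 1) → far a z)
    (N : ℕ) (c : Cond A B) (hc : c.Valid) :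
    ∃ d : Cond A B, d.Valid ∧ Ext far fn c d ∧ ∃ n, N ≤ n ∧
      ((∃ m, m ≤ G n ∧ Dec (U n) d.k m d.h) ∨
        (d.k = n ∧ ¬ ∃ j h' u m, Legal (fun e => ∀ a ∈ d.p, far a e) n d.h j h' u ∧
          Dec (U n) j m h')) := by
  classical
  let p₀ : Finset A := c.p.filter (· ∈ low)
  obtain ⟨N₀, hN₀⟩ := MG p₀ (fun a ha => (Finset.mem_filter.1 ha).2)
  have SH' : ∀ a, ∃ a', a ∉ low → ∀ e, far a' e → ∀ z, e ≤ z → z ≤ G (e + 1) → far a z := by
    intro a
    by_cases h : a ∈ low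
    · exact ⟨a, fun h' => absurd h h'⟩
    · obtain ⟨a', ha'⟩ := SH a h
      exact ⟨a', fun _ => ha'⟩
  choose sh hsh using SH'
  obtain ⟨e, he, hp⟩ := exists_far IH (c.p ∪ c.p.image sh) (max (max N c.k) N₀)
  have hpe : ∀ a ∈ c.p, far a e := fun a ha => hp a (Finset.mem_union_left _ ha)
  have hpz : ∀ a ∈ c.p, a ∉ low → ∀ z, e ≤ z → z ≤ G (e + 1) → far a z := fun a ha hl =>
    hsh a hl e (hp _ (Finset.mem_union_right _ (Finset.mem_image_of_mem _ ha)))
  have hck : c.k ≤ e := by omega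
  have hv := Cond.add_valid hc hck false
  have hx : Ext far fn c (c.add e false) := Cond.add_ext hck hpe (by simp)
  have hk : (c.add e false).k = e + 1 := rfl
  have hh1 : ∀ i < e + 1, (c.add e false).h i ≤ e + 1 := by
    intro i hi
    obtain ⟨m, -, -, -, h3⟩ := hv.2.2 i hi
    exact h3
  by_cases hex : ∃ j h' u m, Legal (fun e => ∀ a ∈ p₀, far a e) (e + 1) (c.add e false).h j h' u ∧
      Dec (U (e + 1)) j m h'
  · obtain ⟨j, h', u, m, hL, hD, hj, hm⟩ := hN₀ (e + 1) (by omega) _ hh1 hex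
    obtain ⟨L1, L2, L3, L4⟩ := hL
    let d : Cond A B := ⟨j, h', (c.add e false).w ∪ u, (c.add e false).v, c.p, c.q⟩
    have hdv : d.Valid := by
      refine ⟨fun x hx => ?_, hv.2.1.trans Finset.subset_union_left, fun i hi => ?_⟩
      · rcases Finset.mem_union.1 hx with hx | hx
        · exact (hv.1 x hx).trans L1
        · exact (L3 x hx).2.1
      · by_cases h : i < e + 1
        · obtain ⟨x, h1, h2, h3, h4⟩ := hv.2.2 i h
          refine ⟨x, Finset.mem_union_left _ h1, h2, ?_, ?_⟩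
          · change x < h' i
            rw [L2 i h]; exact h3
          · change h' i ≤ j
            rw [L2 i h]; exact h4.trans L1.le
        · obtain ⟨x, h1, h2, h3, h4⟩ := L4 i (by omega) hi
          exact ⟨x, Finset.mem_union_right _ h1, h2, h3, h4⟩
    have hdx : Ext far fn (c.add e false) d := by
      refine ⟨L1.le, L2, Finset.subset_union_left, fun x hx hx' => ?_, Finset.Subset.refl _,
        fun x hx hx' => absurd hx hx', Finset.Subset.refl _, Finset.Subset.refl _⟩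
      rcases Finset.mem_union.1 hx with hx | hx
      · exact absurd hx hx'
      · obtain ⟨h1, h2, h3⟩ := L3 x hx
        refine ⟨h1, fun a ha => ?_⟩
        by_cases hl : a ∈ low
        · exact h3 a (Finset.mem_filter.2 ⟨ha, hl⟩)
        · exact hpz a ha hl x (by omega) (by omega)
    exact ⟨d, hdv, hx.trans hv hdx, e + 1, by omega, Or.inl ⟨m, hm, hD⟩⟩
  · refine ⟨c.add e false, hv, hx, e + 1, by omega, Or.inr ⟨rfl, ?_⟩⟩
    rintro ⟨j, h', u, m, hL, hD⟩
    exact hex ⟨j, h', u, m,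
      hL.mono fun x hx' a ha => hx' a (Finset.mem_filter.1 ha).1, hD⟩

end Pool.Agent.Helper48.PS
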