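import Pool.Agent.Helper48.PS.Stage2

/-!
# The stage lemma: the generic object
-/

set_option autoImplicit false

namespace Pool.Agent.Helper48.PS

variable {A B C : Type*}

/-- Limit of a sequence of conditions. -/
theorem limit {far : A → ℕ → Prop} {fn : B → ℕ → ℕ} (s : ℕ → Cond A B)
    (hV : ∀ i, (s i).Valid) (hE : ∀ i, Ext far fn (s i) (s (i + 1)))
    (hk : ∀ N, ∃ i, N ≤ (s i).k) :
    ∃ (w v : Set ℕ) (h : ℕ → ℕ),
      (∀ t, ∀ i < (s t).k, h i = (s t).h i) ∧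
      (∀ t, ∀ m ∈ (s t).w, m ∈ w) ∧ (∀ t, ∀ m ∈ (s t).v, m ∈ v) ∧ v ⊆ w ∧
      (∀ t, ∀ m ∈ w, m ∉ (s t).w → (s t).k ≤ m ∧ ∀ a ∈ (s t).p, far a m) ∧
      (∀ t, ∀ m ∈ v, m ∉ (s t).v → (s t).k ≤ m ∧
        ∀ b ∈ (s t).q, ∀ m₀ ∈ v, m₀ < m → fn b m₀ ≤ m) := by
  have hE' : ∀ i j, i ≤ j → Ext far fn (s i) (s j) := by
    intro i j hij
    induction j, hij using Nat.le_induction with
    | base => exact Ext.refl _ _ _
    | succ j _ ih => exact ih.trans (hV j) (hE j)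
  choose ix hix using fun i => hk (i + 1)
  refine ⟨{m | ∃ i, m ∈ (s i).w}, {m | ∃ i, m ∈ (s i).v}, fun i => (s (ix i)).h i,
    fun t i hi => ?_, fun t m hm => ⟨t, hm⟩, fun t m hm => ⟨t, hm⟩,
    fun m ⟨i, hm⟩ => ⟨i, (hV i).2.1 hm⟩, ?_, ?_⟩
  · rcases le_total t (ix i) with h | h
    · exact (hE' _ _ h).2.1 i hi
    · exact ((hE' _ _ h).2.1 i (hix i)).symm
  · rintro t m ⟨i, hm⟩ hm'
    rcases le_total t i with h | h
    · exact (hE' _ _ h).2.2.2.1 m hm hm'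
    · exact absurd ((hE' _ _ h).2.2.1 hm) hm'
  · rintro t m ⟨i, hm⟩ hm'
    rcases le_total t i with h | h
    · refine ⟨((hE' _ _ h).2.2.2.2.2.1 m hm hm').1, fun b hb m₀ hm₀ hlt => ?_⟩
      obtain ⟨i₀, hm₀⟩ := hm₀
      have h1 : m ∈ (s (max i i₀)).v := (hE' _ _ (le_max_left _ _)).2.2.2.2.1 hm
      have h2 : m₀ ∈ (s (max i i₀)).v := (hE' _ _ (le_max_right _ _)).2.2.2.2.1 hm₀
      exact ((hE' t (max i i₀) (h.trans (le_max_left _ _))).2.2.2.2.2.1 m h1 hm').2 b hb m₀ h2 hlt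
    · exact absurd ((hE' _ _ h).2.2.2.2.1 hm) hm'

/-- **The stage lemma.** -/
theorem stage [Countable A] [Countable B] [Countable C]
    (far : A → ℕ → Prop) (fn : B → ℕ → ℕ)
    (hmono : ∀ b, Monotone (fn b)) (hid : ∀ b k, k < fn b k)
    (IH : ∀ p : Finset A, {e | ∀ a ∈ p, far a e}.Infinite)
    (U : C → ℕ → ℕ → Set (ℕ → ℕ))
    (hU : ∀ c n m h, h ∈ U c n m → ∃ j, Dec (U c n) j m h)
    (G : C → ℕ → ℕ) (low : C → Set A)
    (MG : ∀ c, ∀ p : Finset A, (∀ a ∈ p, a ∈ low c) → ∃ N, ∀ n, N ≤ n → ∀ h : ℕ → ℕ,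
      (∀ i < n, h i ≤ n) →
      (∃ j h' u m, Legal (fun e => ∀ a ∈ p, far a e) n h j h' u ∧ Dec (U c n) j m h') →
      ∃ j h' u m, Legal (fun e => ∀ a ∈ p, far a e) n h j h' u ∧ Dec (U c n) j m h' ∧
        j ≤ G c n ∧ m ≤ G c n)
    (SH : ∀ c a, a ∉ low c → ∃ a', ∀ e, far a' e → ∀ z, e ≤ z → z ≤ G c (e + 1) → far a z) :
    ∃ (w v : Set ℕ) (h : ℕ → ℕ),
      (∀ a, ∃ N, ∀ m ∈ w, N ≤ m → far a m) ∧
      (∀ (p : Finset A) (b : B), {e | (∀ a ∈ p, far a e) ∧ Far (fn b) w e}.Infinite) ∧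
      (∀ c, (∃ n, ∀ m, h ∉ U c n m) ∨ ∀ N, ∃ n, N ≤ n ∧ ∃ m, m ≤ G c n ∧ h ∈ U c n m) ∧
      v ⊆ w ∧ v.Infinite ∧
      (∀ b, ∃ N, ∀ m ∈ v, N ≤ m → ∀ m' ∈ v, m < m' → fn b m ≤ m') ∧
      ∀ i, ∃ m ∈ w, i ≤ m ∧ m < h i := by
  classical
  let D : (A ⊕ B) ⊕ (ℕ ⊕ ((Finset A × B × ℕ) ⊕ (C × ℕ))) → Cond A B → Prop := fun t c =>
    match t with
    | .inl (.inl a) => a ∈ c.p
    | .inl (.inr b) => b ∈ c.q
    | .inr (.inl N) => N ≤ c.k ∧ ∃ m ∈ c.v, N ≤ m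
    | .inr (.inr (.inl (p, b, N))) => ∃ e, N ≤ e ∧ (∀ a ∈ p, far a e) ∧
        (∀ m ∈ c.w, fn b (min m e) ≤ max m e) ∧ fn b e ≤ c.k
    | .inr (.inr (.inr (x, N))) => ∃ n, N ≤ n ∧
        ((∃ m, m ≤ G x n ∧ Dec (U x n) c.k m c.h) ∨
          (c.k = n ∧ ¬ ∃ j h' u m, Legal (fun e => ∀ a ∈ c.p, far a e) n c.h j h' u ∧
            Dec (U x n) j m h'))
  obtain ⟨s, hV, hE, hD⟩ := exists_seq (P := Cond A B) Cond.Valid (Ext far fn) D
    ⟨0, fun _ => 0, ∅, ∅, ∅, ∅⟩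
    ⟨by simp, Finset.Subset.refl _, fun i hi => absurd hi (Nat.not_lt_zero i)⟩
    (fun p _ => Ext.refl _ _ _) (by
      rintro ((a | b) | (N | (⟨p, b, N⟩ | ⟨x, N⟩))) c hc
      · exact dense_p far fn a c hc
      · exact dense_q far fn b c hc
      · exact dense_v far fn IH N c hc
      · exact dense_gap far fn hmono hid IH p b N c hc
      · exact dense_menger far fn IH (U x) (G x) (low x) (MG x) (SH x) N c hc)
  obtain ⟨w, v, h, L1, L2, L3, L4, L5, L6⟩ := limit s hV hE fun N => by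
    obtain ⟨i, hi⟩ := hD (.inr (.inl N))
    exact ⟨i, hi.1⟩
  refine ⟨w, v, h, fun a => ?_, fun p b => ?_, fun x => ?_, L4, ?_, fun b => ?_, fun i => ?_⟩
  · obtain ⟨t, ht⟩ := hD (.inl (.inl a))
    refine ⟨(s t).k, fun m hm hk => (L5 t m hm fun h' => ?_).2 a ht⟩
    have := (hV t).1 m h'
    omega
  · refine Set.infinite_of_forall_exists_gt fun N => ?_
    obtain ⟨t, e, h1, h2, h3, h4⟩ := hD (.inr (.inr (.inl (p, b, N + 1))))
    refine ⟨e, ⟨h2, fun m hm => ?_⟩, h1⟩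
    by_cases hms : m ∈ (s t).w
    · exact h3 m hms
    · have h5 := (L5 t m hm hms).1
      have h6 := hid b e
      rw [min_eq_right (by omega), max_eq_left (by omega)]
      omega
  · by_cases hall : ∃ n, ∀ m, h ∉ U x n m
    · exact Or.inl hall
    · refine Or.inr fun N => ?_
      obtain ⟨t, n, hn, h1 | ⟨hkn, h2⟩⟩ := hD (.inr (.inr (.inr (x, N))))
      · obtain ⟨m, hm, hm'⟩ := h1
        exact ⟨n, hn, m, hm, hm' h (L1 t)⟩
      · exfalso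
        apply hall
        refine ⟨n, fun m hmem => h2 ?_⟩
        obtain ⟨j₀, hj₀⟩ := hU x n m h hmem
        obtain ⟨t', ht'⟩ := hD (.inr (.inl (max j₀ (n + 1))))
        have hk' : max j₀ (n + 1) ≤ (s t').k := ht'.1
        refine ⟨(s t').k, h, (s t').w.filter (n ≤ ·), m, ⟨by omega, fun i hi => ?_,
          fun y hy => ?_, fun i hi hi' => ?_⟩, fun z hz => hj₀ z fun i hi => hz i (by omega)⟩
        · exact L1 t i (by omega)
        · obtain ⟨hy1, hy2⟩ := Finset.mem_filter.1 hy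
          refine ⟨hy2, (hV t').1 y hy1, (L5 t y (L2 t' y hy1) fun hys => ?_).2⟩
          have := (hV t).1 y hys
          omega
        · obtain ⟨y, hy1, hy2, hy3, hy4⟩ := (hV t').2.2 i hi'
          rw [L1 t' i hi']
          exact ⟨y, Finset.mem_filter.2 ⟨hy1, by omega⟩, hy2, hy3, hy4⟩
  · refine Set.infinite_of_forall_exists_gt fun N => ?_
    obtain ⟨t, -, m, hm, hN⟩ := hD (.inr (.inl (N + 1)))
    exact ⟨m, L3 t m hm, hN⟩
  · obtain ⟨t, ht⟩ := hD (.inl (.inr b))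
    refine ⟨(s t).k, fun m hm hk m' hm' hlt => (L6 t m' hm' fun h' => ?_).2 b ht m hm hlt⟩
    have := (hV t).1 m' ((hV t).2.1 h')
    omega
  · obtain ⟨t, ht⟩ := hD (.inr (.inl (i + 1)))
    obtain ⟨m, hm, h1, h2, h3⟩ := (hV t).2.2 i (by have := ht.1; omega)
    refine ⟨m, L2 t m hm, h1, ?_⟩
    rw [L1 t i (by have := ht.1; omega)]
    exact h2

end Pool.Agent.Helper48.PS
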